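import Pool.Agent.H808R2.Gap.PJ

/-!
Zero-free majorants of a holomorphic function on the unit disc.
-/

set_option autoImplicit false

open Metric Set Real

namespace Pool.Agent.H684R3

theorem ker_eq (w ζ : ℂ) : (herglotzRieszKernel 0 w ζ).re =
    (‖ζ‖ ^ 2 - ‖w‖ ^ 2) / ‖ζ - w‖ ^ 2 := by
  have := congrFun (poissonKernel_eq_re_herglotzRieszKernel (c := 0) (w := w)) ζ
  rw [Function.comp_apply] at this
  rw [← this, poissonKernel_def]
  simp

theorem ker_nonneg {w ζ : ℂ} (h : ‖w‖ ≤ ‖ζ‖) : 0 ≤ (herglotzRieszKernel 0 w ζ).re := by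
  rw [ker_eq]
  have : ‖w‖ ^ 2 ≤ ‖ζ‖ ^ 2 := by gcongr
  have : 0 ≤ ‖ζ‖ ^ 2 - ‖w‖ ^ 2 := by linarith
  positivity

theorem ker_le {w ζ : ℂ} {R r : ℝ} (hR1 : R < 1) (hrR : 1 + r ≤ 2 * R) (hr : 0 ≤ r)
    (hζ : ‖ζ‖ = R) (hw : ‖w‖ ≤ r) :
    (herglotzRieszKernel 0 w ζ).re ≤ 4 * (herglotzRieszKernel 0 (R * w) ζ).re := by
  have hR : 0 < R := by linarith
  have hwR : ‖w‖ < R := by linarith
  rw [ker_eq, ker_eq]
  have n1 : ‖(R:ℂ) * w‖ = R * ‖w‖ := by
    rw [norm_mul, Complex.norm_real, Real.norm_eq_abs, abs_of_pos hR]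
  have h1 : 1 - R ≤ ‖ζ - w‖ := by
    have := norm_sub_norm_le ζ w
    linarith
  have h1' : 0 < ‖ζ - w‖ := by linarith
  have h2 : ‖ζ - R * w‖ ≤ 2 * ‖ζ - w‖ := by
    have e : ζ - R * w = (ζ - w) + ((1 - R : ℝ) : ℂ) * w := by push_cast; ring
    have := norm_add_le (ζ - w) (((1 - R : ℝ) : ℂ) * w)
    rw [← e, norm_mul, Complex.norm_real, Real.norm_eq_abs, abs_of_pos (by linarith)] at this
    nlinarith [norm_nonneg w]
  have h3 : 0 < ‖ζ - R * w‖ := by
    have := norm_sub_norm_le ζ (R * w)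
    rw [hζ, n1] at this
    nlinarith [norm_nonneg w]
  rw [hζ, n1]
  have h4 : R ^ 2 - ‖w‖ ^ 2 ≤ R ^ 2 - (R * ‖w‖) ^ 2 := by
    have : (R * ‖w‖) ^ 2 ≤ ‖w‖ ^ 2 := by
      rw [mul_pow]
      have : R ^ 2 ≤ 1 := by nlinarith
      nlinarith [sq_nonneg ‖w‖]
    linarith
  have h5 : 0 ≤ R ^ 2 - (R * ‖w‖) ^ 2 := by
    have : 0 ≤ R ^ 2 - ‖w‖ ^ 2 := by nlinarith [norm_nonneg w]
    linarith
  rw [← mul_div_assoc, div_le_div_iff₀ (by positivity) (by positivity)]
  have h6 : ‖ζ - R * w‖ ^ 2 ≤ 4 * ‖ζ - w‖ ^ 2 := by nlinarith [norm_nonneg (ζ - R * w)]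
  calc (R ^ 2 - ‖w‖ ^ 2) * ‖ζ - R * w‖ ^ 2 ≤ (R ^ 2 - (R * ‖w‖) ^ 2) * ‖ζ - R * w‖ ^ 2 := by gcongr
    _ ≤ (R ^ 2 - (R * ‖w‖) ^ 2) * (4 * ‖ζ - w‖ ^ 2) := by gcongr
    _ = _ := by ring

theorem posLog_cont {f : ℂ → ℂ} {R : ℝ} (hf : DifferentiableOn ℂ f (ball 0 1)) (hR : 0 ≤ R)
    (hR1 : R < 1) : ContinuousOn (fun ζ => Real.posLog ‖f ζ‖) (sphere 0 |R|) := by
  rw [abs_of_nonneg hR]
  have hsub : sphere (0:ℂ) R ⊆ ball 0 1 := by
    intro x hx
    rw [mem_sphere_zero_iff_norm] at hx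
    rw [mem_ball_zero_iff, hx]
    exact hR1
  exact continuous_posLog.comp_continuousOn (hf.continuousOn.mono hsub).norm

/-- Existence of a zero-free majorant, with control of the value at the centre. -/
theorem exists_majorant {f : ℂ → ℂ} (hf : DifferentiableOn ℂ f (ball 0 1)) {R r : ℝ}
    (hR1 : R < 1) (hrR : 1 + r ≤ 2 * R) (hr : 0 ≤ r) :
    ∃ g : ℂ → ℂ, DifferentiableOn ℂ g (ball 0 1) ∧ (∀ z ∈ ball (0:ℂ) 1, g z ≠ 0) ∧
      (∀ z ∈ ball (0:ℂ) 1, 1 ≤ ‖g z‖) ∧ (∀ z, ‖z‖ ≤ r → ‖f z‖ ≤ ‖g z‖) ∧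
      ‖g 0‖ = Real.exp (4 * circleAverage (fun ζ => Real.posLog ‖f ζ‖) 0 R) := by
  have hR : 0 < R := by linarith
  set u : ℂ → ℝ := fun ζ => Real.posLog ‖f ζ‖ with hu
  have hucont := posLog_cont hf hR.le hR1
  have hui : CircleIntegrable u 0 R := hucont.circleIntegrable'
  have hui' : CircleIntegrable (fun ζ => (u ζ : ℂ)) 0 R :=
    (Complex.continuous_ofReal.comp_continuousOn hucont).circleIntegrable'
  set G : ℂ → ℂ := fun w => circleAverage (fun ζ => herglotzRieszKernel 0 w ζ • (u ζ : ℂ)) 0 R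
    with hG
  have hGd : DifferentiableOn ℂ G (ball 0 R) :=
    differentiableOn_circleAverage_herglotzRieszKernel_smul hui'
  have hmul : ∀ z ∈ ball (0:ℂ) 1, (R:ℂ) * z ∈ ball (0:ℂ) R := by
    intro z hz
    rw [mem_ball_zero_iff] at hz ⊢
    rw [norm_mul, Complex.norm_real, Real.norm_eq_abs, abs_of_pos hR]
    nlinarith
  set K : ℂ → ℂ → ℝ := fun w => Complex.re ∘ herglotzRieszKernel 0 w with hK
  have hKc : ∀ w ∈ ball (0:ℂ) R, ContinuousOn (K w) (sphere 0 |R|) := fun w hw =>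
    Complex.continuous_re.comp_continuousOn (continuousOn_herglotzRieszKernel_sphere hw)
  have hnorm : ∀ z ∈ ball (0:ℂ) 1, ‖Complex.exp (4 * G (R * z))‖ =
      Real.exp (4 * circleAverage (K (R * z) • u) 0 R) := by
    intro z hz
    rw [Complex.norm_exp]
    congr 1
    have := re_circleAverage_herglotzRieszKernel_smul hui (hmul z hz)
    rw [hK]
    simp only [← this]
    have h4 : (4 * G (R * z)).re = 4 * (G (R * z)).re := by
      have : (4:ℂ) = ((4:ℝ):ℂ) := by norm_num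
      rw [this, Complex.re_ofReal_mul]
    rw [h4]
  have hint : ∀ w ∈ ball (0:ℂ) R, CircleIntegrable (K w • u) 0 R := fun w hw =>
    hui.continuousOn_smul (hKc w hw)
  have hnn : ∀ z ∈ ball (0:ℂ) 1, 0 ≤ circleAverage (K (R * z) • u) 0 R := by
    intro z hz
    apply circleAverage_nonneg_of_nonneg
    intro ζ hζ
    rw [abs_of_pos hR, mem_sphere_zero_iff_norm] at hζ
    refine mul_nonneg (ker_nonneg ?_) posLog_nonneg
    rw [hζ]
    exact (mem_ball_zero_iff.1 (hmul z hz)).le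
  refine ⟨fun z => Complex.exp (4 * G (R * z)), ?_, fun z _ => Complex.exp_ne_zero _, ?_, ?_, ?_⟩
  · have h1 : DifferentiableOn ℂ (fun z : ℂ => (R:ℂ) * z) (ball 0 1) := by fun_prop
    exact ((hGd.comp h1 hmul).const_mul 4).cexp
  · intro z hz
    simp only
    rw [hnorm z hz]
    exact Real.one_le_exp (by have := hnn z hz; positivity)
  · intro z hz
    have hzR : z ∈ ball (0:ℂ) R := by rw [mem_ball_zero_iff]; linarith
    have hz1 : z ∈ ball (0:ℂ) 1 := by rw [mem_ball_zero_iff]; linarith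
    simp only
    rw [hnorm z hz1]
    by_cases h0 : f z = 0
    · rw [h0, norm_zero]
      positivity
    · have hfan : AnalyticOnNhd ℂ f (closedBall 0 R) :=
        (hf.analyticOnNhd isOpen_ball).mono (closedBall_subset_ball hR1)
      have hPJ := Pool.Agent.H808R2.Gap.pl_PJ hR hzR hfan h0
      rw [← Real.log_le_iff_le_exp (norm_pos_iff.2 h0)]
      refine hPJ.trans ?_
      have hlogi : CircleIntegrable (fun x => Real.log ‖f x‖) 0 R := by
        apply MeromorphicOn.circleIntegrable_log_norm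
        rw [abs_of_pos hR]
        exact (hfan.mono sphere_subset_closedBall).meromorphicOn
      have h5 : 4 * circleAverage (K (R * z) • u) 0 R =
          circleAverage ((4:ℝ) • (K (R * z) • u)) 0 R := by
        rw [circleAverage_smul]
        rfl
      rw [h5]
      apply circleAverage_mono
      · exact hlogi.continuousOn_smul (hKc z hzR)
      · exact (hint _ (hmul z hz1)).const_smul
      · intro ζ hζ
        rw [abs_of_pos hR, mem_sphere_zero_iff_norm] at hζ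
        have k1 : 0 ≤ K z ζ := ker_nonneg (by rw [hζ]; exact (mem_ball_zero_iff.1 hzR).le)
        have k2 : K z ζ ≤ 4 * K (R * z) ζ := ker_le hR1 hrR hr hζ hz
        have k3 : Real.log ‖f ζ‖ ≤ u ζ := by
          rw [hu]
          simp only [posLog_apply]
          exact le_max_right _ _
        have k4 : 0 ≤ u ζ := posLog_nonneg
        change K z ζ * Real.log ‖f ζ‖ ≤ 4 * (K (R * z) ζ * u ζ)
        calc K z ζ * Real.log ‖f ζ‖ ≤ K z ζ * u ζ := by gcongr
          _ ≤ (4 * K (R * z) ζ) * u ζ := by gcongr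
          _ = _ := by ring
  · simp only
    rw [hnorm 0 (mem_ball_self one_pos)]
    congr 2
    apply circleAverage_congr_sphere
    intro ζ hζ
    rw [abs_of_pos hR, mem_sphere_zero_iff_norm] at hζ
    have : K ((R:ℂ) * 0) ζ = 1 := by
      rw [hK]
      simp only [Function.comp_apply, mul_zero]
      rw [ker_eq, norm_zero, sub_zero, hζ, zero_pow two_ne_zero, sub_zero]
      exact div_self (pow_ne_zero 2 hR.ne')
    change K ((R:ℂ) * 0) ζ * u ζ = u ζ
    rw [this, one_mul]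

/-- Harnack's inequality, applied to a zero-free majorant. -/
theorem avg_le_of_majorant {f g : ℂ → ℂ} (hf : DifferentiableOn ℂ f (ball 0 1))
    (hg : DifferentiableOn ℂ g (ball 0 1)) {r : ℝ} (hr : 0 < r) (hr1 : r < 1)
    (hg1 : ∀ z, ‖z‖ ≤ r → 1 ≤ ‖g z‖) (hfg : ∀ z, ‖z‖ ≤ r → ‖f z‖ ≤ ‖g z‖) {w : ℂ}
    (hw : ‖w‖ < r) :
    circleAverage (fun ζ => Real.posLog ‖f ζ‖) 0 r ≤ (r + ‖w‖) / (r - ‖w‖) * Real.log ‖g w‖ := by
  have hwr : w ∈ ball (0:ℂ) r := mem_ball_zero_iff.2 hw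
  have hsub : closedBall (0:ℂ) r ⊆ ball 0 1 := closedBall_subset_ball hr1
  have hgan : AnalyticOnNhd ℂ g (closedBall 0 r) := (hg.analyticOnNhd isOpen_ball).mono hsub
  have hgne : ∀ z ∈ closedBall (0:ℂ) r, g z ≠ 0 := by
    intro z hz h0
    have := hg1 z (mem_closedBall_zero_iff.1 hz)
    rw [h0, norm_zero] at this
    linarith
  set L : ℂ → ℝ := fun x => Real.log ‖g x‖ with hL
  have hharm : InnerProductSpace.HarmonicOnNhd L (closedBall (0:ℂ) r) := fun x hx =>
    (hgan x hx).harmonicAt_log_norm (hgne x hx)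
  have hP := hharm.circleAverage_re_herglotzRieszKernel_smul hwr
  set K : ℂ → ℝ := Complex.re ∘ herglotzRieszKernel 0 w with hK
  have hKc : ContinuousOn K (sphere 0 |r|) :=
    Complex.continuous_re.comp_continuousOn (continuousOn_herglotzRieszKernel_sphere hwr)
  have hLi : CircleIntegrable L 0 r := by
    apply MeromorphicOn.circleIntegrable_log_norm
    rw [abs_of_pos hr]
    exact (hgan.mono sphere_subset_closedBall).meromorphicOn
  set c : ℝ := (r - ‖w‖) / (r + ‖w‖) with hc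
  have hcpos : 0 < c := by
    have := norm_nonneg w
    rw [hc]
    apply div_pos <;> linarith
  have h1 : c * circleAverage (fun ζ => Real.posLog ‖f ζ‖) 0 r ≤ L w := by
    rw [← hP]
    have e : c * circleAverage (fun ζ => Real.posLog ‖f ζ‖) 0 r =
        circleAverage (c • (fun ζ => Real.posLog ‖f ζ‖)) 0 r := by
      rw [circleAverage_smul, smul_eq_mul]
    rw [e]
    apply circleAverage_mono
    · exact (posLog_cont hf hr.le hr1).circleIntegrable'.const_smul
    · exact hLi.continuousOn_smul hKc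
    · intro ζ hζ
      rw [abs_of_pos hr] at hζ
      have hζn := mem_sphere_zero_iff_norm.1 hζ
      have k1 : c ≤ K ζ := by
        have := le_re_herglotzRieszKernel hζ hwr
        simp only [sub_zero] at this
        rw [hK, hc]
        simpa [herglotzRieszKernel_def] using this
      have k2 : Real.posLog ‖f ζ‖ ≤ L ζ := by
        rw [hL]
        simp only
        rw [← Real.posLog_eq_log (x := ‖g ζ‖) (by
          rw [abs_of_nonneg (norm_nonneg _)]
          exact hg1 ζ hζn.le)]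
        exact posLog_le_posLog (norm_nonneg _) (hfg ζ hζn.le)
      have k3 : 0 ≤ Real.posLog ‖f ζ‖ := posLog_nonneg
      change c * Real.posLog ‖f ζ‖ ≤ K ζ * L ζ
      calc c * Real.posLog ‖f ζ‖ ≤ K ζ * Real.posLog ‖f ζ‖ := by gcongr
        _ ≤ K ζ * L ζ := by
          have : 0 ≤ K ζ := hcpos.le.trans k1
          gcongr
  have h2 : (r + ‖w‖) / (r - ‖w‖) * c = 1 := by
    rw [hc]
    have := norm_nonneg w
    have e1 : r + ‖w‖ ≠ 0 := by linarith
    have e2 : r - ‖w‖ ≠ 0 := by linarith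
    field_simp
  have h3 : 0 ≤ (r + ‖w‖) / (r - ‖w‖) := by
    have := norm_nonneg w
    apply div_nonneg <;> linarith
  calc circleAverage (fun ζ => Real.posLog ‖f ζ‖) 0 r
      = (r + ‖w‖) / (r - ‖w‖) * (c * circleAverage (fun ζ => Real.posLog ‖f ζ‖) 0 r) := by
        rw [← mul_assoc, h2, one_mul]
    _ ≤ (r + ‖w‖) / (r - ‖w‖) * L w := mul_le_mul_of_nonneg_left h1 h3

end Pool.Agent.H684R3
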