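import Pool.Agent.H684R3.Disc
import Pool.Agent.H684R3.Maj

/-!
Admissibility is definable: the analytic part.
-/

set_option autoImplicit false

open Metric Set

namespace Pool.Agent.H684R3

/-- doubling condition -/
def N1 (z k K : HD) : Prop := ∀ s, PF s → PF (1 - 2 * s) → ∀ y y', CF y → CF y' →
  (z - (1 - 2 * s)) ∣ (k - y) → (z - (1 - s)) ∣ (k - y') → ¬ LF (K * y) y'

/-- `g` is a majorant of `f` and `1` on the disc of radius `1 - s` -/
def N2 (z f g s : HD) : Prop := ∀ w, CF w → LF w (1 - s) → ∀ y y', CF y → CF y' →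
  (z - w) ∣ (g - y) → (z - w) ∣ (f - y') → (¬ LF y y' ∧ ¬ LF y 1)

/-- the value of `g` at the centre is bounded by the value of `k` at `1 - s` -/
def N3 (z g k s : HD) : Prop := ∀ y y', CF y → CF y' → z ∣ (g - y) → (z - (1 - s)) ∣ (k - y') →
  ¬ LF y' y

/-- formula for non-admissibility -/
def NF (f : HD) : Prop := ∃ z k K, ZF z ∧ CF K ∧ N1 z k K ∧
  ∀ s, PF s → PF (1 - s) → ∃ g, IsUnit g ∧ N2 z f g s ∧ N3 z g k s

/-- the Nevanlinna characteristic -/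
noncomputable def TT (f : ℂ → ℂ) (r : ℝ) : ℝ :=
  Real.circleAverage (fun ζ => Real.posLog ‖f ζ‖) 0 r

theorem TT_nonneg (f : ℂ → ℂ) (r : ℝ) : 0 ≤ TT f r :=
  Real.circleAverage_nonneg_of_nonneg fun _ _ => Real.posLog_nonneg

theorem cst_one_sub (s : ℂ) : (1 : HD) - cst s = cst (1 - s) := rfl

theorem cst_one_sub_two (s : ℂ) : (1 : HD) - 2 * cst s = cst (1 - 2 * s) := by
  rw [← cst_two, ← cst_mul, cst_one_sub]

theorem IsPt.uniq {q : HD} {p w : ℂ} (h : IsPt q p) (hw : w ∈ ball (0:ℂ) 1) (h0 : q.1 w = 0) :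
    w = p := by
  have h1 : q ∣ (idf - cst p) := by
    rw [h.2, HD.sub_apply, idf_apply h.mem, cst_apply, sub_self]
  obtain ⟨g, hg⟩ := h1
  have h2 := congrArg (fun f : HD => f.1 w) hg
  simp only [HD.sub_apply, HD.mul_apply, cst_apply, h0, zero_mul] at h2
  rw [idf_apply hw, sub_eq_zero] at h2
  exact h2

/-- growth bound, in terms of real numbers -/
def GB (f : ℂ → ℂ) : Prop := ∃ C : ℝ, ∃ r₀ : ℝ, r₀ < 1 ∧ ∀ r, r₀ < r → r < 1 →
  TT f r ≤ C * Real.log (1 - r)⁻¹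

theorem NF_of_GB (f : HD) (h : GB f.1) : NF f := by
  obtain ⟨C, r₀, hr₀, hT⟩ := h
  -- normalize
  obtain ⟨m, hm⟩ := exists_nat_ge (4 * C)
  set r₁ : ℝ := max r₀ 0 with hr₁
  have hr₁0 : 0 ≤ r₁ := le_max_right _ _
  have hr₁1 : r₁ < 1 := max_lt hr₀ one_pos
  set κ : ℝ := (1 - r₁) / 2 with hκ
  have hκ0 : 0 < κ := by rw [hκ]; linarith
  have hκ1 : κ ≤ 1 / 2 := by rw [hκ]; linarith
  have hkd : DifferentiableOn ℂ (fun w : ℂ => (((κ:ℂ) * (1 - w)) ^ m)⁻¹) (ball 0 1) := by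
    refine DifferentiableOn.inv (by fun_prop) fun w hw => pow_ne_zero _ (mul_ne_zero ?_ ?_)
    · exact_mod_cast hκ0.ne'
    · intro h0
      have : w = 1 := (sub_eq_zero.1 h0).symm
      rw [this, mem_ball_zero_iff, norm_one] at hw
      exact lt_irrefl _ hw
  refine ⟨idf, mkH _ hkd, cst (2 ^ m), ZF_idf, CF_cst _, ?_, ?_⟩
  · intro s hs hs' y y' hy hy' h1 h2 h3
    obtain ⟨s, hs0, rfl⟩ := (PF_iff s).1 hs
    obtain ⟨t, ht0, ht⟩ := (PF_iff _).1 hs'
    rw [cst_one_sub_two] at ht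
    have ht' := cst_inj ht
    have hst : 1 - 2 * s = t := by exact_mod_cast ht'
    obtain ⟨a, rfl⟩ := (CF_iff y).1 hy
    obtain ⟨b, rfl⟩ := (CF_iff y').1 hy'
    have hp1 : (1 - 2 * s : ℂ) ∈ ball (0:ℂ) 1 := by
      rw [mem_ball_zero_iff]
      have : (1 - 2 * s : ℂ) = ((1 - 2 * s : ℝ) : ℂ) := by push_cast; ring
      rw [this, Complex.norm_real, Real.norm_eq_abs, abs_of_pos (by linarith)]
      linarith
    have hp2 : (1 - s : ℂ) ∈ ball (0:ℂ) 1 := by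
      rw [mem_ball_zero_iff]
      have : (1 - s : ℂ) = ((1 - s : ℝ) : ℂ) := by push_cast; ring
      rw [this, Complex.norm_real, Real.norm_eq_abs, abs_of_pos (by linarith)]
      linarith
    rw [cst_one_sub_two, dvd_lin hp1, HD.sub_apply, mkH_apply _ hp1, cst_apply, sub_eq_zero] at h1
    rw [cst_one_sub, dvd_lin hp2, HD.sub_apply, mkH_apply _ hp2, cst_apply, sub_eq_zero] at h2
    rw [← cst_mul, LF_iff, ← h1, ← h2] at h3
    have e1 : (1 - (1 - 2 * s) : ℂ) = 2 * s := by ring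
    have e2 : (1 - (1 - s) : ℂ) = s := by ring
    rw [e1, e2] at h3
    have e3 : (2:ℂ) ^ m * (((κ:ℂ) * (2 * s)) ^ m)⁻¹ = (((κ:ℂ) * s) ^ m)⁻¹ := by
      have : (κ:ℂ) * (2 * s) = 2 * (κ * s) := by ring
      rw [this, mul_pow 2, mul_inv, ← mul_assoc, mul_inv_cancel₀ (pow_ne_zero _ two_ne_zero),
        one_mul]
    rw [e3] at h3
    exact lt_irrefl _ h3
  · intro s hs hs'
    obtain ⟨s, hs0, rfl⟩ := (PF_iff s).1 hs
    obtain ⟨t, ht0, ht⟩ := (PF_iff _).1 hs'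
    rw [cst_one_sub] at ht
    have ht' := cst_inj ht
    have hst : 1 - s = t := by exact_mod_cast ht'
    have hs1 : s < 1 := by linarith
    have hκs : 0 < κ * s := by positivity
    have hκs1 : κ * s ≤ 1 := by nlinarith
    obtain ⟨g, hgd, hg0, hg1, hgf, hgc⟩ := exists_majorant f.diff (R := 1 - κ * s) (r := 1 - s)
      (by linarith) (by nlinarith) (by linarith)
    refine ⟨mkH g hgd, ?_, ?_, ?_⟩
    · exact (isUnit_iff _).2 fun z hz => by rw [mkH_apply _ hz]; exact hg0 z hz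
    · intro w hw hlt y y' hy hy' h1 h2
      obtain ⟨w, rfl⟩ := (CF_iff w).1 hw
      obtain ⟨a, rfl⟩ := (CF_iff y).1 hy
      obtain ⟨b, rfl⟩ := (CF_iff y').1 hy'
      rw [cst_one_sub, LF_iff] at hlt
      have e1 : ‖(1 - s : ℂ)‖ = 1 - s := by
        have : (1 - s : ℂ) = ((1 - s : ℝ) : ℂ) := by push_cast; ring
        rw [this, Complex.norm_real, Real.norm_eq_abs, abs_of_pos (by linarith)]
      rw [e1] at hlt
      have hwb : w ∈ ball (0:ℂ) 1 := by rw [mem_ball_zero_iff]; linarith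
      rw [dvd_lin hwb, HD.sub_apply, mkH_apply _ hwb, cst_apply, sub_eq_zero] at h1
      rw [dvd_lin hwb, HD.sub_apply, cst_apply, sub_eq_zero] at h2
      rw [← cst_one, LF_iff, LF_iff, not_lt, not_lt, ← h1, ← h2, norm_one]
      exact ⟨hgf w hlt.le, hg1 w hwb⟩
    · intro y y' hy hy' h1 h2
      obtain ⟨a, rfl⟩ := (CF_iff y).1 hy
      obtain ⟨b, rfl⟩ := (CF_iff y').1 hy'
      have hp2 : (1 - s : ℂ) ∈ ball (0:ℂ) 1 := by
        rw [mem_ball_zero_iff]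
        have : (1 - s : ℂ) = ((1 - s : ℝ) : ℂ) := by push_cast; ring
        rw [this, Complex.norm_real, Real.norm_eq_abs, abs_of_pos (by linarith)]
        linarith
      have e0 : idf = idf - cst 0 := by rw [cst_zero, sub_zero]
      rw [e0, dvd_lin zero_mem, HD.sub_apply, mkH_apply _ zero_mem, cst_apply, sub_eq_zero] at h1
      rw [cst_one_sub, dvd_lin hp2, HD.sub_apply, mkH_apply _ hp2, cst_apply, sub_eq_zero] at h2
      rw [LF_iff, not_lt, ← h1, ← h2, hgc]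
      have e2 : (1 - (1 - s) : ℂ) = s := by ring
      rw [e2, norm_inv, norm_pow, norm_mul, Complex.norm_real, Complex.norm_real,
        Real.norm_eq_abs, Real.norm_eq_abs, abs_of_pos hκ0, abs_of_pos hs0]
      have hTT := hT (1 - κ * s) (by
        have : r₀ ≤ r₁ := le_max_left _ _
        nlinarith) (by linarith)
      have e3 : 1 - (1 - κ * s) = κ * s := by ring
      rw [e3] at hTT
      have hlog : 0 ≤ Real.log (κ * s)⁻¹ := Real.log_nonneg ((one_le_inv₀ hκs).2 hκs1)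
      have h4 : 4 * TT f.1 (1 - κ * s) ≤ m * Real.log (κ * s)⁻¹ := by
        calc 4 * TT f.1 (1 - κ * s) ≤ 4 * (C * Real.log (κ * s)⁻¹) := by linarith
          _ = (4 * C) * Real.log (κ * s)⁻¹ := by ring
          _ ≤ m * Real.log (κ * s)⁻¹ := mul_le_mul_of_nonneg_right hm hlog
      have h5 : Real.exp (m * Real.log (κ * s)⁻¹) = ((κ * s) ^ m)⁻¹ := by
        rw [Real.exp_nat_mul, Real.exp_log (by positivity), inv_pow]
      rw [← h5]
      exact Real.exp_le_exp.2 h4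

/-- Schwarz–Pick estimate for the distance to the boundary. -/
theorem schwarz_pick {z : ℂ → ℂ} (hz : DifferentiableOn ℂ z (ball 0 1))
    (hm : MapsTo z (ball 0 1) (ball 0 1)) {w : ℂ} (hw : w ∈ ball (0:ℂ) 1) :
    (1 - ‖z 0‖ ^ 2) / 8 * (1 - ‖w‖) ≤ 1 - ‖z w‖ := by
  have h00 : (0:ℂ) ∈ ball (0:ℂ) 1 := mem_ball_self one_pos
  set a := z 0 with ha
  have hab : a ∈ ball (0:ℂ) 1 := hm h00
  set h : ℂ → ℂ := fun x => mob (-a) (z x) with hh
  have hhd : DifferentiableOn ℂ h (ball 0 1) := (mob_diff (neg_mem hab)).comp hz hm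
  have hhm : MapsTo h (ball 0 1) (ball 0 1) := fun x hx => mob_mem (neg_mem hab) (hm hx)
  have hh0 : h 0 = 0 := by
    simp only [hh]
    rw [← ha, mob]
    simp
  have h1 : ‖h w‖ ≤ ‖w‖ := Complex.norm_le_norm_of_mapsTo_ball hhd
    (fun x hx => ball_subset_closedBall (hhm hx)) hh0 (mem_ball_zero_iff.1 hw)
  have h2 : z w = mob a (h w) := (mob_mob_neg hab (hm hw)).symm
  have h3 := mob_sq hab (hhm hw)
  rw [← h2] at h3
  have hwn := mem_ball_zero_iff.1 hw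
  have han := mem_ball_zero_iff.1 hab
  have hzn := mem_ball_zero_iff.1 (hm hw)
  have hhn := mem_ball_zero_iff.1 (hhm hw)
  set D := ‖1 + (starRingEnd ℂ) a * h w‖ with hD
  have hD0 : 0 < D := norm_pos_iff.2 (mob_den hab (hhm hw))
  have hD2 : D ≤ 2 := by
    have := norm_add_le (1:ℂ) ((starRingEnd ℂ) a * h w)
    rw [norm_one, norm_mul, RCLike.norm_conj] at this
    nlinarith [norm_nonneg a, norm_nonneg (h w)]
  have h4 : (1 - ‖a‖ ^ 2) * (1 - ‖w‖) / 4 ≤ 1 - ‖z w‖ ^ 2 := by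
    rw [h3]
    have p1 : 0 ≤ 1 - ‖a‖ ^ 2 := by nlinarith [norm_nonneg a]
    have p2 : 1 - ‖w‖ ≤ 1 - ‖h w‖ ^ 2 := by nlinarith [norm_nonneg w, norm_nonneg (h w)]
    have p3 : 0 ≤ 1 - ‖w‖ := by linarith
    apply div_le_div₀
    · exact mul_nonneg p1 (p3.trans p2)
    · exact mul_le_mul_of_nonneg_left p2 p1
    · positivity
    · nlinarith
  have h5 : 1 - ‖z w‖ ^ 2 ≤ 2 * (1 - ‖z w‖) := by nlinarith [norm_nonneg (z w)]
  linarith

theorem GB_of_NF (f : HD) (h : NF f) : GB f.1 := by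
  obtain ⟨z, k, K, hz, hK, h1, h2⟩ := h
  obtain ⟨Kc, rfl⟩ := (CF_iff K).1 hK
  -- the points of the sequence
  have hs : ∀ n : ℕ, (0:ℝ) < (1/2) ^ (n + 1) ∧ ((1:ℝ)/2) ^ (n + 1) < 1 := fun n =>
    ⟨by positivity, pow_lt_one₀ (by norm_num) (by norm_num) (by omega)⟩
  have hcn : ∀ n : ℕ, ‖(1 - (((1/2) ^ (n + 1) : ℝ) : ℂ))‖ < 1 := by
    intro n
    obtain ⟨a, b⟩ := hs n
    have : (1 - (((1/2) ^ (n + 1) : ℝ) : ℂ)) = ((1 - (1/2) ^ (n+1) : ℝ) : ℂ) := by push_cast; ring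
    rw [this, Complex.norm_real, Real.norm_eq_abs, abs_of_pos (by linarith)]
    linarith
  choose q hq hq' using fun n => hz.pt (hcn n)
  have hstep : ∀ n, ‖k.1 (q (n + 1))‖ ≤ ‖Kc‖ * ‖k.1 (q n)‖ := by
    intro n
    have hPF : PF (cst (((1/2) ^ (n + 2) : ℝ) : ℂ)) := (PF_iff _).2 ⟨_, (hs (n+1)).1, rfl⟩
    have e : (1 - 2 * (((1/2) ^ (n + 2) : ℝ) : ℂ)) = (1 - (((1/2) ^ (n + 1) : ℝ) : ℂ)) := by
      push_cast; ring
    have hPF' : PF (1 - 2 * cst (((1/2) ^ (n + 2) : ℝ) : ℂ)) := by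
      rw [cst_one_sub_two, e]
      refine (PF_iff _).2 ⟨1 - (1/2) ^ (n+1), by linarith [(hs n).2], ?_⟩
      congr 1
      push_cast
      ring
    have := h1 _ hPF hPF' (cst (k.1 (q n))) (cst (k.1 (q (n+1)))) (CF_cst _) (CF_cst _) (by
      rw [cst_one_sub_two, e, (hq n).2, HD.sub_apply, cst_apply, sub_self]) (by
      rw [cst_one_sub, (hq (n+1)).2, HD.sub_apply, cst_apply, sub_self])
    rw [← cst_mul, LF_iff, not_lt, norm_mul] at this
    exact this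
  set A : ℝ := max ‖Kc‖ 1 with hA
  have hA1 : 1 ≤ A := le_max_right _ _
  set B : ℝ := max ‖k.1 (q 0)‖ 1 with hB
  have hB1 : 1 ≤ B := le_max_right _ _
  have hbound : ∀ n : ℕ, ‖k.1 (q n)‖ ≤ A ^ n * B := by
    intro n
    induction n with
    | zero => rw [pow_zero, one_mul]; exact le_max_left _ _
    | succ n ih =>
      calc ‖k.1 (q (n + 1))‖ ≤ ‖Kc‖ * ‖k.1 (q n)‖ := hstep n
        _ ≤ A * (A ^ n * B) := by
          have : ‖Kc‖ ≤ A := le_max_left _ _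
          gcongr
        _ = A ^ (n + 1) * B := by ring
  -- the zero of the coordinate function
  obtain ⟨w₀, hw₀, hw₀'⟩ := hz.pt (c := 0) (by rw [norm_zero]; exact one_pos)
  rw [cst_zero, sub_zero] at hw₀
  have hw₀n : ‖w₀‖ < 1 := mem_ball_zero_iff.1 hw₀.mem
  have hzm : MapsTo z.1 (ball 0 1) (ball 0 1) := fun x hx => hz.maps hx
  have hz0 : ‖z.1 0‖ < 1 := mem_ball_zero_iff.1 (hzm zero_mem)
  set c₀ : ℝ := (1 - ‖z.1 0‖ ^ 2) / 8 with hc₀
  have hc₀0 : 0 < c₀ := by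
    rw [hc₀]
    have : ‖z.1 0‖ ^ 2 < 1 := by nlinarith [norm_nonneg (z.1 0)]
    linarith
  have hc₀1 : c₀ ≤ 1 := by
    rw [hc₀]
    have := sq_nonneg ‖z.1 0‖
    linarith
  set H : ℝ := 4 / (1 - ‖w₀‖) with hH
  have hH0 : 0 < H := by
    rw [hH]
    apply div_pos (by norm_num)
    linarith
  -- the main estimate
  have main : ∀ r, (1 + ‖w₀‖) / 2 ≤ r → r < 1 → ∀ n : ℕ, (1/2 : ℝ) ^ (n + 1) < c₀ * (1 - r) →
      TT f.1 r ≤ H * (n * Real.log A + Real.log B) := by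
    intro r hr hr1 n hn
    have hPF : PF (cst (((1/2) ^ (n + 1) : ℝ) : ℂ)) := (PF_iff _).2 ⟨_, (hs n).1, rfl⟩
    have hPF' : PF (1 - cst (((1/2) ^ (n + 1) : ℝ) : ℂ)) := by
      rw [cst_one_sub]
      refine (PF_iff _).2 ⟨1 - (1/2) ^ (n+1), by linarith [(hs n).2], ?_⟩
      congr 1
      push_cast
      ring
    obtain ⟨g, hgu, hg2, hg3⟩ := h2 _ hPF hPF'
    have hval : ∀ x, ‖x‖ ≤ r → 1 ≤ ‖g.1 x‖ ∧ ‖f.1 x‖ ≤ ‖g.1 x‖ := by
      intro x hx
      have hxb : x ∈ ball (0:ℂ) 1 := by rw [mem_ball_zero_iff]; linarith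
      have hzx : ‖z.1 x‖ < 1 := mem_ball_zero_iff.1 (hzm hxb)
      obtain ⟨p, hp, hp'⟩ := hz.pt hzx
      have hxp : x = p := hp.uniq hxb (by rw [HD.sub_apply, cst_apply, sub_self])
      subst hxp
      have hsp := schwarz_pick z.diff hzm hxb
      have hlt : ‖z.1 x‖ < 1 - (1/2) ^ (n + 1) := by
        have : c₀ * (1 - r) ≤ c₀ * (1 - ‖x‖) := by
          apply mul_le_mul_of_nonneg_left _ hc₀0.le
          linarith
        rw [← hc₀] at hsp
        linarith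
      have := hg2 (cst (z.1 x)) (CF_cst _) (by
        rw [cst_one_sub, LF_iff]
        have e : (1 - (((1/2) ^ (n + 1) : ℝ) : ℂ)) = ((1 - (1/2) ^ (n+1) : ℝ) : ℂ) := by
          push_cast; ring
        rw [e, Complex.norm_real, Real.norm_eq_abs, abs_of_pos (by linarith [(hs n).2])]
        exact hlt) (cst (g.1 x)) (cst (f.1 x)) (CF_cst _) (CF_cst _)
        (by rw [hp.2, HD.sub_apply, cst_apply, sub_self])
        (by rw [hp.2, HD.sub_apply, cst_apply, sub_self])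
      rw [← cst_one, LF_iff, LF_iff, not_lt, not_lt, norm_one] at this
      exact ⟨this.2, this.1⟩
    have hr0 : 0 < r := by
      have := norm_nonneg w₀
      linarith
    have hwr : ‖w₀‖ < r := by linarith
    have h3 := avg_le_of_majorant f.diff g.diff hr0 hr1 (fun x hx => (hval x hx).1)
      (fun x hx => (hval x hx).2) hwr
    have h4 : ‖g.1 w₀‖ ≤ A ^ n * B := by
      have := hg3 (cst (g.1 w₀)) (cst (k.1 (q n))) (CF_cst _) (CF_cst _)
        (by rw [hw₀.2, HD.sub_apply, cst_apply, sub_self])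
        (by rw [cst_one_sub, (hq n).2, HD.sub_apply, cst_apply, sub_self])
      rw [LF_iff, not_lt] at this
      exact this.trans (hbound n)
    have h5 : 1 ≤ ‖g.1 w₀‖ := (hval w₀ hwr.le).1
    have h6 : Real.log ‖g.1 w₀‖ ≤ n * Real.log A + Real.log B := by
      calc Real.log ‖g.1 w₀‖ ≤ Real.log (A ^ n * B) := Real.log_le_log (by linarith) h4
        _ = _ := by
          rw [Real.log_mul (by positivity) (by positivity), Real.log_pow]
    have h7 : (r + ‖w₀‖) / (r - ‖w₀‖) ≤ H := by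
      rw [hH, div_le_div_iff₀ (by linarith) (by linarith)]
      nlinarith [norm_nonneg w₀]
    have h8 : 0 ≤ Real.log ‖g.1 w₀‖ := Real.log_nonneg h5
    calc TT f.1 r ≤ (r + ‖w₀‖) / (r - ‖w₀‖) * Real.log ‖g.1 w₀‖ := h3
      _ ≤ H * Real.log ‖g.1 w₀‖ := mul_le_mul_of_nonneg_right h7 h8
      _ ≤ _ := mul_le_mul_of_nonneg_left h6 hH0.le
  -- conclusion
  have hlA : 0 ≤ Real.log A := Real.log_nonneg hA1
  have hlB : 0 ≤ Real.log B := Real.log_nonneg hB1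
  have hl2 : 0 < Real.log 2 := Real.log_pos one_lt_two
  have hlc : 0 ≤ Real.log c₀⁻¹ := Real.log_nonneg ((one_le_inv₀ hc₀0).2 hc₀1)
  refine ⟨H * ((1 + Real.log c₀⁻¹) / Real.log 2 * Real.log A + Real.log B),
    max ((1 + ‖w₀‖) / 2) (1 - Real.exp (-1)), max_lt (by linarith) (by
      have := Real.exp_pos (-1)
      linarith), ?_⟩
  intro r hr hr1
  have hr2 : (1 + ‖w₀‖) / 2 ≤ r := (le_max_left _ _).trans hr.le
  have hr3 : 1 - r < Real.exp (-1) := by
    have := lt_of_le_of_lt (le_max_right ((1 + ‖w₀‖) / 2) (1 - Real.exp (-1))) hr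
    linarith
  have hr4 : 0 < 1 - r := by linarith
  set ℓ : ℝ := Real.log (1 - r)⁻¹ with hℓ
  have hℓ1 : 1 ≤ ℓ := by
    rw [hℓ, Real.log_inv]
    have := Real.log_lt_log hr4 hr3
    rw [Real.log_exp] at this
    linarith
  set x : ℝ := (ℓ + Real.log c₀⁻¹) / Real.log 2 with hx
  have hx0 : 0 ≤ x := by
    rw [hx]
    apply div_nonneg _ hl2.le
    linarith
  have hn := main r hr2 hr1 ⌊x⌋₊ (by
    have h9 : x < ⌊x⌋₊ + 1 := Nat.lt_floor_add_one x
    have h10 : ℓ + Real.log c₀⁻¹ < (⌊x⌋₊ + 1) * Real.log 2 := by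
      rwa [hx, div_lt_iff₀ hl2] at h9
    have hpos : 0 < c₀ * (1 - r) := by positivity
    rw [← Real.log_lt_log_iff (by positivity) hpos, Real.log_pow, Real.log_mul hc₀0.ne' hr4.ne',
      one_div, Real.log_inv]
    rw [hℓ, Real.log_inv, Real.log_inv] at h10
    push_cast
    linarith)
  refine hn.trans ?_
  rw [mul_assoc]
  apply mul_le_mul_of_nonneg_left _ hH0.le
  have h11 : (⌊x⌋₊ : ℝ) ≤ x := Nat.floor_le hx0
  have h12 : x ≤ (1 + Real.log c₀⁻¹) / Real.log 2 * ℓ := by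
    rw [hx, div_mul_eq_mul_div]
    apply div_le_div_of_nonneg_right _ hl2.le
    nlinarith
  have h13 : (⌊x⌋₊ : ℝ) * Real.log A ≤ (1 + Real.log c₀⁻¹) / Real.log 2 * ℓ * Real.log A :=
    mul_le_mul_of_nonneg_right (h11.trans h12) hlA
  nlinarith

theorem NF_iff (f : HD) : NF f ↔ GB f.1 := ⟨GB_of_NF f, NF_of_GB f⟩

end Pool.Agent.H684R3
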