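import Pool.Agent.H684R3.Omit

/-!
Moebius transformations of the disc.
-/

set_option autoImplicit false

open Metric Set Filter Topology

namespace Pool.Agent.H684R3

open scoped ComplexConjugate

/-- the automorphism of the disc taking `0` to `p` -/
noncomputable def mob (p z : ℂ) : ℂ := (z + p) / (1 + conj p * z)

theorem mob_den {p z : ℂ} (hp : p ∈ ball (0:ℂ) 1) (hz : z ∈ ball (0:ℂ) 1) :
    1 + conj p * z ≠ 0 := by
  intro h
  rw [mem_ball_zero_iff] at hp hz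
  have h1 : conj p * z = -1 := by linear_combination h
  have h2 := congrArg norm h1
  rw [norm_mul, RCLike.norm_conj, norm_neg, norm_one] at h2
  nlinarith [norm_nonneg p, norm_nonneg z]

theorem mob_id (p z : ℂ) : ‖1 + conj p * z‖ ^ 2 - ‖z + p‖ ^ 2 = (1 - ‖p‖ ^ 2) * (1 - ‖z‖ ^ 2) := by
  rw [Complex.sq_norm, Complex.sq_norm, Complex.sq_norm, Complex.sq_norm, Complex.normSq_apply,
    Complex.normSq_apply, Complex.normSq_apply, Complex.normSq_apply]
  simp only [Complex.add_re, Complex.add_im, Complex.mul_re, Complex.mul_im, Complex.conj_re,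
    Complex.conj_im, Complex.one_re, Complex.one_im]
  ring

theorem mob_sq {p z : ℂ} (hp : p ∈ ball (0:ℂ) 1) (hz : z ∈ ball (0:ℂ) 1) :
    1 - ‖mob p z‖ ^ 2 = (1 - ‖p‖ ^ 2) * (1 - ‖z‖ ^ 2) / ‖1 + conj p * z‖ ^ 2 := by
  have h := mob_den hp hz
  have h' : ‖1 + conj p * z‖ ≠ 0 := norm_ne_zero_iff.2 h
  rw [mob, norm_div, ← mob_id, div_pow, sub_div, div_self (pow_ne_zero 2 h')]

theorem mob_mem {p z : ℂ} (hp : p ∈ ball (0:ℂ) 1) (hz : z ∈ ball (0:ℂ) 1) :
    mob p z ∈ ball (0:ℂ) 1 := by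
  have h := mob_sq hp hz
  have h' : 0 < ‖1 + conj p * z‖ := norm_pos_iff.2 (mob_den hp hz)
  rw [mem_ball_zero_iff] at *
  have h1 : 0 < (1 - ‖p‖ ^ 2) * (1 - ‖z‖ ^ 2) / ‖1 + conj p * z‖ ^ 2 := by
    have : 0 < 1 - ‖p‖ ^ 2 := by nlinarith [norm_nonneg p]
    have : 0 < 1 - ‖z‖ ^ 2 := by nlinarith [norm_nonneg z]
    positivity
  rw [← h] at h1
  nlinarith [norm_nonneg (mob p z)]

theorem mob_diff {p : ℂ} (hp : p ∈ ball (0:ℂ) 1) : DifferentiableOn ℂ (mob p) (ball 0 1) := by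
  intro z hz
  unfold mob
  apply DifferentiableWithinAt.div
  · fun_prop
  · fun_prop
  · exact mob_den hp hz

theorem neg_mem {p : ℂ} (hp : p ∈ ball (0:ℂ) 1) : -p ∈ ball (0:ℂ) 1 := by
  rw [mem_ball_zero_iff] at *
  rwa [norm_neg]

theorem mob_neg_mob {p z : ℂ} (hp : p ∈ ball (0:ℂ) 1) (hz : z ∈ ball (0:ℂ) 1) :
    mob (-p) (mob p z) = z := by
  have h1 := mob_den hp hz
  have h2 := mob_den (neg_mem hp) (mob_mem hp hz)
  have h3 : mob p z * (1 + conj p * z) = z + p := by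
    rw [mob, div_mul_cancel₀ _ h1]
  generalize mob p z = w at h2 h3 ⊢
  rw [mob, div_eq_iff h2, map_neg]
  linear_combination h3

theorem mob_mob_neg {p z : ℂ} (hp : p ∈ ball (0:ℂ) 1) (hz : z ∈ ball (0:ℂ) 1) :
    mob p (mob (-p) z) = z := by
  have := mob_neg_mob (neg_mem hp) hz
  rwa [neg_neg] at this

@[simp] theorem mob_zero (p : ℂ) : mob p 0 = p := by simp [mob]

theorem V_inv {p : ℂ} (hp : p ∈ ball (0:ℂ) 1) {x y : ℂ} (hx : x ∈ ball (0:ℂ) 1)
    (hy : y ∈ ball (0:ℂ) 1) (c : ℂ) : V (mob p x) (mob p y) c = V x y c := by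
  apply Subset.antisymm
  · rintro w ⟨u, hu, hx', hy'⟩
    exact ⟨fun z => u (mob p z), hu.comp (mob_diff hp) fun z hz => mob_mem hp hz, hx', hy'⟩
  · rintro w ⟨u, hu, hx', hy'⟩
    refine ⟨fun z => u (mob (-p) z), hu.comp (mob_diff (neg_mem hp))
      fun z hz => mob_mem (neg_mem hp) hz, ?_, ?_⟩
    · simp only
      rw [mob_neg_mob hp hx, hx']
    · simp only
      rw [mob_neg_mob hp hy, hy']

theorem V_norm {p o : ℂ} (hp : p ∈ ball (0:ℂ) 1) (ho : o ∈ ball (0:ℂ) 1) (c : ℂ) :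
    V p o c = V 0 (mob (-p) o) c := by
  have := V_inv hp zero_mem' (mob_mem (neg_mem hp) ho) c
  rwa [mob_zero, mob_mob_neg hp ho] at this
where
  zero_mem' : (0:ℂ) ∈ ball (0:ℂ) 1 := mem_ball_self one_pos

/-- the value sets see whether two points have the same distance from a third one -/
theorem V_eq_of_two {p p' o : ℂ} (hp : p ∈ ball (0:ℂ) 1) (hp' : p' ∈ ball (0:ℂ) 1)
    (ho : o ∈ ball (0:ℂ) 1) (h : V p o 2 = V p' o 2) (c : ℂ) : V p o c = V p' o c := by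
  rw [V_norm hp ho, V_norm hp' ho] at h
  rw [V_norm hp ho, V_norm hp' ho]
  exact V_rot (norm_eq_of_V (mob_mem (neg_mem hp) ho) (mob_mem (neg_mem hp') ho) h)

theorem small_mem {ε : ℝ} (h0 : 0 < ε) (h : ε < 1/2) : (ε:ℂ) ∈ ball (0:ℂ) 1 := by
  rw [mem_ball_zero_iff, Complex.norm_real, Real.norm_eq_abs, abs_of_pos h0]
  linarith

theorem V_eps {ε : ℝ} (h0 : 0 < ε) (h : ε < 1/2) (c : ℂ) : V ε 0 c = V 0 ε c := by
  have h1 := small_mem h0 h
  rw [V_norm h1 (mem_ball_self one_pos), mob_zero]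
  exact V_rot (norm_neg _)

theorem V_eps' {ε : ℝ} (h0 : 0 < ε) (h : ε < 1/2) (c : ℂ) : V (-ε) 0 c = V 0 ε c := by
  have h1 := small_mem h0 h
  rw [V_norm (neg_mem h1) (mem_ball_self one_pos), mob_zero, neg_neg]

/-- A map of the class which is not constant: there are two points at the same distance from a
third one at which the value sets differ. -/
theorem exists_points {f : ℂ → ℂ} (hf : Om f) (hne : ¬ ∃ c, ∀ z ∈ ball (0:ℂ) 1, f z = c) :
    ∃ a ∈ ball (0:ℂ) 1, ∃ a' ∈ ball (0:ℂ) 1, ∃ b ∈ ball (0:ℂ) 1,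
      V a b 2 = V a' b 2 ∧ ¬ (V a b (f a) ⊆ V a' b (f a')) := by
  have h1 : ∃ z₀ ∈ ball (0:ℂ) 1, deriv f z₀ ≠ 0 := by
    by_contra hcon
    push Not at hcon
    apply hne
    refine ⟨f 0, fun z hz => ?_⟩
    exact isOpen_ball.is_const_of_deriv_eq_zero (convex_ball (0:ℂ) 1).isPreconnected
      hf.1 (fun x hx => hcon x hx) hz (mem_ball_self one_pos)
  obtain ⟨z₀, hz₀, hd⟩ := h1
  set g : ℂ → ℂ := fun z => f (mob z₀ z) with hg
  have hgO : Om g := hf.comp (mob_diff hz₀) fun z hz => mob_mem hz₀ hz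
  have h0 : (0:ℂ) ∈ ball (0:ℂ) 1 := mem_ball_self one_pos
  have hg' : deriv g 0 ≠ 0 := by
    have hmd : HasDerivAt (mob z₀) (1 - z₀ * conj z₀) 0 := by
      have e1 : HasDerivAt (fun z : ℂ => z + z₀) 1 0 := (hasDerivAt_id (0:ℂ)).add_const z₀
      have e2 : HasDerivAt (fun z : ℂ => 1 + conj z₀ * z) (conj z₀ * 1) 0 :=
        ((hasDerivAt_id (0:ℂ)).const_mul (conj z₀)).const_add 1
      have e3 := e1.div e2 (mob_den hz₀ h0)
      refine e3.congr_deriv ?_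
      simp
    have hfd : HasDerivAt f (deriv f z₀) (mob z₀ 0) := by
      rw [mob_zero]
      exact (hf.1.differentiableAt (isOpen_ball.mem_nhds hz₀)).hasDerivAt
    have h2 := (hfd.comp (0:ℂ) hmd).deriv
    have h3 : deriv g 0 = deriv f z₀ * (1 - z₀ * conj z₀) := h2
    rw [h3]
    apply mul_ne_zero hd
    intro h4
    have h5 : z₀ * conj z₀ = 1 := by linear_combination -h4
    rw [Complex.mul_conj, Complex.normSq_eq_norm_sq] at h5
    have h6 : ‖z₀‖ ^ 2 = 1 := by exact_mod_cast h5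
    rw [mem_ball_zero_iff] at hz₀
    nlinarith [norm_nonneg z₀]
  obtain ⟨ε, hε0, hε1, hVne⟩ := exists_ne hgO hg'
  have hm1 := small_mem hε0 hε1
  have hm2 := neg_mem hm1
  have key : ∀ c, V (mob z₀ ε) z₀ c = V 0 ε c := by
    intro c
    have := V_inv hz₀ hm1 h0 c
    rw [mob_zero] at this
    rw [this, V_eps hε0 hε1]
  have key' : ∀ c, V (mob z₀ (-ε)) z₀ c = V 0 ε c := by
    intro c
    have := V_inv hz₀ hm2 h0 c
    rw [mob_zero] at this
    rw [this, V_eps' hε0 hε1]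
  by_cases hs : V 0 ε (g ε) ⊆ V 0 ε (g (-ε))
  · refine ⟨mob z₀ (-ε), mob_mem hz₀ hm2, mob z₀ ε, mob_mem hz₀ hm1, z₀, hz₀, ?_, ?_⟩
    · rw [key, key']
    · rw [key, key']
      intro h
      exact hVne (Subset.antisymm hs h)
  · refine ⟨mob z₀ ε, mob_mem hz₀ hm1, mob z₀ (-ε), mob_mem hz₀ hm2, z₀, hz₀, ?_, ?_⟩
    · rw [key, key']
    · rw [key, key']
      exact hs

end Pool.Agent.H684R3
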