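import Pool.Agent.H684R3.Ring
import Pool.Agent.H684R3.Mob

/-!
The constant functions are definable in the ring of the holomorphic functions on the disc.
-/

set_option autoImplicit false

open Metric Set

namespace Pool.Agent.H684R3

/-- `u` omits `0` and `1` -/
def MF (u : HD) : Prop := IsUnit u ∧ IsUnit (u - 1)

theorem MF_iff (u : HD) : MF u ↔ Om u.1 := by
  rw [MF, isUnit_iff, isUnit_iff]
  constructor
  · rintro ⟨h1, h2⟩
    refine ⟨u.diff, fun z hz => ⟨h1 z hz, fun h => h2 z hz ?_⟩⟩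
    rw [HD.sub_apply, h, HD.one_apply, sub_self]
  · rintro ⟨_, h⟩
    refine ⟨fun z hz => (h z hz).1, fun z hz h0 => (h z hz).2 ?_⟩
    rw [HD.sub_apply, HD.one_apply, sub_eq_zero] at h0
    exact h0

/-- some function omitting `0` and `1` agrees with `x` at `a` and with `y` at `b` -/
def RF (a b x y : HD) : Prop := ∃ u, MF u ∧ a ∣ (u - x) ∧ b ∣ (u - y)

theorem RF_iff {a b : HD} {p o : ℂ} (ha : IsPt a p) (hb : IsPt b o) (x y : HD) :
    RF a b x y ↔ y.1 o ∈ V p o (x.1 p) := by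
  constructor
  · rintro ⟨u, hu, h1, h2⟩
    rw [ha.2, HD.sub_apply, sub_eq_zero] at h1
    rw [hb.2, HD.sub_apply, sub_eq_zero] at h2
    exact ⟨u.1, (MF_iff u).1 hu, h1, h2⟩
  · rintro ⟨u, hu, h1, h2⟩
    refine ⟨mkH u hu.1, (MF_iff _).2 ⟨(mkH u hu.1).diff, fun z hz => ?_⟩, ?_, ?_⟩
    · rw [mkH_apply _ hz]
      exact hu.2 z hz
    · rw [ha.2, HD.sub_apply, mkH_apply _ ha.mem, h1, sub_self]
    · rw [hb.2, HD.sub_apply, mkH_apply _ hb.mem, h2, sub_self]

/-- formula defining the constants -/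
def CF (f : HD) : Prop :=
  f = 0 ∨ f = 1 ∨ (MF f ∧ ∀ a a' b : HD, Irreducible a → Irreducible a' → Irreducible b →
    (∀ x, RF a b 2 x ↔ RF a' b 2 x) → ∀ x, RF a b f x → RF a' b f x)

theorem two_apply (z : ℂ) : (2 : HD).1 z = 2 := by
  rw [← cst_two, cst_apply]

theorem CF_iff (f : HD) : CF f ↔ ∃ c, f = cst c := by
  constructor
  · rintro (h | h | ⟨h1, h2⟩)
    · exact ⟨0, h⟩
    · exact ⟨1, h⟩
    · by_contra hcon
      have hf := (MF_iff f).1 h1
      obtain ⟨a, ha, a', ha', b, hb, hV, hV'⟩ := exists_points hf (by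
        rintro ⟨c, hc⟩
        exact hcon ⟨c, HD.ext' fun z hz => by rw [hc z hz, cst_apply]⟩)
      apply hV'
      have pa := isPt_lin ha
      have pa' := isPt_lin ha'
      have pb := isPt_lin hb
      intro w hw
      have h3 := h2 _ _ _ (irr_lin ha) (irr_lin ha') (irr_lin hb) (fun x => by
        rw [RF_iff pa pb, RF_iff pa' pb, two_apply, two_apply, hV]) (cst w)
        ((RF_iff pa pb _ _).2 (by rw [cst_apply]; exact hw))
      rw [RF_iff pa' pb, cst_apply] at h3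
      exact h3
  · rintro ⟨c, rfl⟩
    by_cases h0 : c = 0
    · exact Or.inl (by rw [h0]; rfl)
    by_cases h1 : c = 1
    · exact Or.inr (Or.inl (by rw [h1]; rfl))
    refine Or.inr (Or.inr ⟨(MF_iff _).2 ⟨(cst c).diff, fun z _ => ⟨h0, h1⟩⟩, ?_⟩)
    intro a a' b ha ha' hb h x hx
    obtain ⟨p, hp⟩ := exists_pt ha
    obtain ⟨p', hp'⟩ := exists_pt ha'
    obtain ⟨o, ho⟩ := exists_pt hb
    rw [RF_iff hp ho, cst_apply] at hx
    rw [RF_iff hp' ho, cst_apply]
    rw [← V_eq_of_two hp.mem hp'.mem ho.mem ?_ c]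
    · exact hx
    · ext w
      have := h (cst w)
      rwa [RF_iff hp ho, RF_iff hp' ho, two_apply, two_apply, cst_apply] at this

section

variable [FirstOrder.Ring.CompatibleRing HD]

theorem def1_MF : Def1 MF :=
  (def1_isUnit.app (TDef.var 0)).and (def1_isUnit.app ((TDef.var 0).sub TDef.one))

theorem def4_RF : Def4 RF := by
  refine PDef.ex (P := fun u (v : ℕ → HD) => MF u ∧ v 0 ∣ (u - v 2) ∧ v 1 ∣ (u - v 3)) ?_
  exact (def1_MF.app (TDef.var 0)).and
    ((def2_dvd.app (TDef.var 1) ((TDef.var 0).sub (TDef.var 3))).and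
      (def2_dvd.app (TDef.var 2) ((TDef.var 0).sub (TDef.var 4))))

theorem def1_CF : Def1 CF := by
  refine (PDef.eq (TDef.var 0) TDef.zero).or ((PDef.eq (TDef.var 0) TDef.one).or
    ((def1_MF.app (TDef.var 0)).and ?_))
  refine PDef.all (P := fun a (v : ℕ → HD) => ∀ a' b : HD, Irreducible a → Irreducible a' →
    Irreducible b →
    (∀ x, RF a b 2 x ↔ RF a' b 2 x) → ∀ x, RF a b (v 0) x → RF a' b (v 0) x) ?_
  refine PDef.all (P := fun a' (w : ℕ → HD) => ∀ b : HD, Irreducible (w 0) → Irreducible a' →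
    Irreducible b →
    (∀ x, RF (w 0) b 2 x ↔ RF a' b 2 x) → ∀ x, RF (w 0) b (w 1) x → RF a' b (w 1) x) ?_
  refine PDef.all (P := fun b (w : ℕ → HD) => Irreducible (w 1) → Irreducible (w 0) →
    Irreducible b →
    (∀ x, RF (w 1) b 2 x ↔ RF (w 0) b 2 x) → ∀ x, RF (w 1) b (w 2) x → RF (w 0) b (w 2) x) ?_
  refine (def1_irreducible.app (TDef.var 2)).imp ((def1_irreducible.app (TDef.var 1)).imp
    ((def1_irreducible.app (TDef.var 0)).imp (PDef.imp ?_ ?_)))
  · refine PDef.all (P := fun x (w : ℕ → HD) => RF (w 2) (w 0) 2 x ↔ RF (w 1) (w 0) 2 x) ?_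
    exact (def4_RF.app (TDef.var 3) (TDef.var 1) TDef.two (TDef.var 0)).iff
      (def4_RF.app (TDef.var 2) (TDef.var 1) TDef.two (TDef.var 0))
  · refine PDef.all (P := fun x (w : ℕ → HD) => RF (w 2) (w 0) (w 3) x →
      RF (w 1) (w 0) (w 3) x) ?_
    exact (def4_RF.app (TDef.var 3) (TDef.var 1) (TDef.var 4) (TDef.var 0)).imp
      (def4_RF.app (TDef.var 2) (TDef.var 1) (TDef.var 4) (TDef.var 0))

end

end Pool.Agent.H684R3
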