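import Pool.Agent.H684R3.Adm

/-!
Admissibility is definable: the formula.
-/

set_option autoImplicit false

open Metric Set

namespace Pool.Agent.H684R3

section

variable [FirstOrder.Ring.CompatibleRing HD]

theorem def1_UF : Def1 UF := by
  refine (def1_CF.app (TDef.var 0)).and ?_
  refine PDef.ex (P := fun f (v : ℕ → HD) => ¬ IsUnit (f - v 0) ∧ ¬ IsUnit f ∧ IsUnit (f - 1) ∧
    ∀ y y', CF y → CF y' → ¬ IsUnit (f - y) → ¬ IsUnit (f - y') → ¬ IsUnit (f - y * y')) ?_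
  refine (def1_isUnit.app ((TDef.var 0).sub (TDef.var 1))).not.and
    ((def1_isUnit.app (TDef.var 0)).not.and
    ((def1_isUnit.app ((TDef.var 0).sub TDef.one)).and ?_))
  refine PDef.all (P := fun y (v : ℕ → HD) => ∀ y', CF y → CF y' → ¬ IsUnit (v 0 - y) →
    ¬ IsUnit (v 0 - y') → ¬ IsUnit (v 0 - y * y')) ?_
  refine PDef.all (P := fun y' (v : ℕ → HD) => CF (v 0) → CF y' → ¬ IsUnit (v 1 - v 0) →
    ¬ IsUnit (v 1 - y') → ¬ IsUnit (v 1 - v 0 * y')) ?_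
  exact (def1_CF.app (TDef.var 1)).imp ((def1_CF.app (TDef.var 0)).imp
    ((def1_isUnit.app ((TDef.var 2).sub (TDef.var 1))).not.imp
    ((def1_isUnit.app ((TDef.var 2).sub (TDef.var 0))).not.imp
    (def1_isUnit.app ((TDef.var 2).sub ((TDef.var 1).mul (TDef.var 0)))).not)))

theorem def2_LF : Def2 LF := by
  refine (PDef.eq (TDef.var 1) TDef.zero).not.and ?_
  refine PDef.ex (P := fun u (v : ℕ → HD) => UF u ∧ v 0 = u * v 1) ?_
  exact (def1_UF.app (TDef.var 0)).and (PDef.eq (TDef.var 1) ((TDef.var 0).mul (TDef.var 2)))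

theorem def1_PF : Def1 PF := by
  refine (def1_CF.app (TDef.var 0)).and (PDef.and ?_
    (def2_LF.app ((TDef.var 0).sub TDef.one) ((TDef.var 0).add TDef.one)))
  refine PDef.ex (P := fun j (v : ℕ → HD) => CF j ∧ j * j + 1 = 0 ∧ ¬ LF (v 0 - j) (v 0 + j) ∧
    ¬ LF (v 0 + j) (v 0 - j)) ?_
  exact (def1_CF.app (TDef.var 0)).and
    ((PDef.eq (((TDef.var 0).mul (TDef.var 0)).add TDef.one) TDef.zero).and
    ((def2_LF.app ((TDef.var 1).sub (TDef.var 0)) ((TDef.var 1).add (TDef.var 0))).not.and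
    (def2_LF.app ((TDef.var 1).add (TDef.var 0)) ((TDef.var 1).sub (TDef.var 0))).not))

theorem def1_ZF : Def1 ZF := by
  refine PDef.all (P := fun c (v : ℕ → HD) => CF c → (UF c → Irreducible (v 0 - c)) ∧
    (¬ UF c → IsUnit (v 0 - c))) ?_
  exact (def1_CF.app (TDef.var 0)).imp
    (((def1_UF.app (TDef.var 0)).imp (def1_irreducible.app ((TDef.var 1).sub (TDef.var 0)))).and
    ((def1_UF.app (TDef.var 0)).not.imp (def1_isUnit.app ((TDef.var 1).sub (TDef.var 0)))))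

theorem def3_N1 : Def3 N1 := by
  refine PDef.all (P := fun s (v : ℕ → HD) => PF s → PF (1 - 2 * s) → ∀ y y', CF y → CF y' →
    (v 0 - (1 - 2 * s)) ∣ (v 1 - y) → (v 0 - (1 - s)) ∣ (v 1 - y') → ¬ LF (v 2 * y) y') ?_
  refine (def1_PF.app (TDef.var 0)).imp
    ((def1_PF.app (TDef.one.sub (TDef.two.mul (TDef.var 0)))).imp ?_)
  refine PDef.all (P := fun y (v : ℕ → HD) => ∀ y', CF y → CF y' →
    (v 1 - (1 - 2 * v 0)) ∣ (v 2 - y) → (v 1 - (1 - v 0)) ∣ (v 2 - y') → ¬ LF (v 3 * y) y') ?_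
  refine PDef.all (P := fun y' (v : ℕ → HD) => CF (v 0) → CF y' →
    (v 2 - (1 - 2 * v 1)) ∣ (v 3 - v 0) → (v 2 - (1 - v 1)) ∣ (v 3 - y') →
      ¬ LF (v 4 * v 0) y') ?_
  exact (def1_CF.app (TDef.var 1)).imp ((def1_CF.app (TDef.var 0)).imp
    ((def2_dvd.app ((TDef.var 3).sub (TDef.one.sub (TDef.two.mul (TDef.var 2))))
      ((TDef.var 4).sub (TDef.var 1))).imp
    ((def2_dvd.app ((TDef.var 3).sub (TDef.one.sub (TDef.var 2)))
      ((TDef.var 4).sub (TDef.var 0))).imp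
    (def2_LF.app ((TDef.var 5).mul (TDef.var 1)) (TDef.var 0)).not)))

theorem def4_N2 : Def4 N2 := by
  refine PDef.all (P := fun w (v : ℕ → HD) => CF w → LF w (1 - v 3) → ∀ y y', CF y → CF y' →
    (v 0 - w) ∣ (v 2 - y) → (v 0 - w) ∣ (v 1 - y') → (¬ LF y y' ∧ ¬ LF y 1)) ?_
  refine (def1_CF.app (TDef.var 0)).imp
    ((def2_LF.app (TDef.var 0) (TDef.one.sub (TDef.var 4))).imp ?_)
  refine PDef.all (P := fun y (v : ℕ → HD) => ∀ y', CF y → CF y' →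
    (v 1 - v 0) ∣ (v 3 - y) → (v 1 - v 0) ∣ (v 2 - y') → (¬ LF y y' ∧ ¬ LF y 1)) ?_
  refine PDef.all (P := fun y' (v : ℕ → HD) => CF (v 0) → CF y' →
    (v 2 - v 1) ∣ (v 4 - v 0) → (v 2 - v 1) ∣ (v 3 - y') → (¬ LF (v 0) y' ∧ ¬ LF (v 0) 1)) ?_
  exact (def1_CF.app (TDef.var 1)).imp ((def1_CF.app (TDef.var 0)).imp
    ((def2_dvd.app ((TDef.var 3).sub (TDef.var 2)) ((TDef.var 5).sub (TDef.var 1))).imp
    ((def2_dvd.app ((TDef.var 3).sub (TDef.var 2)) ((TDef.var 4).sub (TDef.var 0))).imp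
    ((def2_LF.app (TDef.var 1) (TDef.var 0)).not.and
      (def2_LF.app (TDef.var 1) TDef.one).not))))

theorem def4_N3 : Def4 N3 := by
  refine PDef.all (P := fun y (v : ℕ → HD) => ∀ y', CF y → CF y' →
    v 0 ∣ (v 1 - y) → (v 0 - (1 - v 3)) ∣ (v 2 - y') → ¬ LF y' y) ?_
  refine PDef.all (P := fun y' (v : ℕ → HD) => CF (v 0) → CF y' →
    v 1 ∣ (v 2 - v 0) → (v 1 - (1 - v 4)) ∣ (v 3 - y') → ¬ LF y' (v 0)) ?_
  exact (def1_CF.app (TDef.var 1)).imp ((def1_CF.app (TDef.var 0)).imp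
    ((def2_dvd.app (TDef.var 2) ((TDef.var 3).sub (TDef.var 1))).imp
    ((def2_dvd.app ((TDef.var 2).sub (TDef.one.sub (TDef.var 5)))
      ((TDef.var 4).sub (TDef.var 0))).imp
    (def2_LF.app (TDef.var 0) (TDef.var 1)).not)))

theorem def1_NF : Def1 NF := by
  refine PDef.ex (P := fun z (v : ℕ → HD) => ∃ k K, ZF z ∧ CF K ∧ N1 z k K ∧
    ∀ s, PF s → PF (1 - s) → ∃ g, IsUnit g ∧ N2 z (v 0) g s ∧ N3 z g k s) ?_
  refine PDef.ex (P := fun k (v : ℕ → HD) => ∃ K, ZF (v 0) ∧ CF K ∧ N1 (v 0) k K ∧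
    ∀ s, PF s → PF (1 - s) → ∃ g, IsUnit g ∧ N2 (v 0) (v 1) g s ∧ N3 (v 0) g k s) ?_
  refine PDef.ex (P := fun K (v : ℕ → HD) => ZF (v 1) ∧ CF K ∧ N1 (v 1) (v 0) K ∧
    ∀ s, PF s → PF (1 - s) → ∃ g, IsUnit g ∧ N2 (v 1) (v 2) g s ∧ N3 (v 1) g (v 0) s) ?_
  refine (def1_ZF.app (TDef.var 2)).and ((def1_CF.app (TDef.var 0)).and
    ((def3_N1.app (TDef.var 2) (TDef.var 1) (TDef.var 0)).and ?_))
  refine PDef.all (P := fun s (v : ℕ → HD) => PF s → PF (1 - s) → ∃ g, IsUnit g ∧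
    N2 (v 2) (v 3) g s ∧ N3 (v 2) g (v 1) s) ?_
  refine (def1_PF.app (TDef.var 0)).imp ((def1_PF.app (TDef.one.sub (TDef.var 0))).imp ?_)
  refine PDef.ex (P := fun g (v : ℕ → HD) => IsUnit g ∧
    N2 (v 3) (v 4) g (v 0) ∧ N3 (v 3) g (v 2) (v 0)) ?_
  exact (def1_isUnit.app (TDef.var 0)).and
    ((def4_N2.app (TDef.var 4) (TDef.var 5) (TDef.var 0) (TDef.var 1)).and
    (def4_N3.app (TDef.var 4) (TDef.var 0) (TDef.var 3) (TDef.var 1)))

/-- a unary definable relation is given by a formula with one free variable -/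
theorem formula_of_def1 {P : HD → Prop} (h : Def1 P) :
    ∃ φ : FirstOrder.Language.ring.Formula (Fin 1), ∀ f : HD, φ.Realize (fun _ => f) ↔ P f := by
  obtain ⟨φ, hφ⟩ := h
  refine ⟨φ.relabel (fun _ : ℕ => (0 : Fin 1)), fun f => ?_⟩
  rw [FirstOrder.Language.Formula.realize_relabel]
  exact hφ _

end

end Pool.Agent.H684R3
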