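import Pool.Agent.H684R3.Const

/-!
The constants of absolute value less than one, the comparison of absolute values of constants,
the positive real constants and the coordinate functions are definable.
-/

set_option autoImplicit false

open Metric Set

namespace Pool.Agent.H684R3

theorem CF_cst (c : ℂ) : CF (cst c) := (CF_iff _).2 ⟨c, rfl⟩

theorem not_isUnit_iff (f : HD) : ¬ IsUnit f ↔ ∃ z ∈ ball (0:ℂ) 1, f.1 z = 0 := by
  rw [isUnit_iff]
  push Not
  rfl

/-- the constant `x` has absolute value less than one -/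
def UF (x : HD) : Prop := CF x ∧ ∃ f : HD, ¬ IsUnit (f - x) ∧ ¬ IsUnit f ∧ IsUnit (f - 1) ∧
  ∀ y y', CF y → CF y' → ¬ IsUnit (f - y) → ¬ IsUnit (f - y') → ¬ IsUnit (f - y * y')

theorem range_disc {f : ℂ → ℂ} (hf : DifferentiableOn ℂ f (ball 0 1))
    (h0 : ∃ z ∈ ball (0:ℂ) 1, f z = 0) (h1 : ∀ z ∈ ball (0:ℂ) 1, f z ≠ 1)
    (hm : ∀ z ∈ ball (0:ℂ) 1, ∀ w ∈ ball (0:ℂ) 1, ∃ x ∈ ball (0:ℂ) 1, f x = f z * f w)
    {z : ℂ} (hz : z ∈ ball (0:ℂ) 1) : ‖f z‖ < 1 := by
  obtain ⟨p, hp, hp0⟩ := h0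
  have han : AnalyticOnNhd ℂ f (ball 0 1) := hf.analyticOnNhd isOpen_ball
  rcases han.is_constant_or_isOpen (convex_ball (0:ℂ) 1).isPreconnected with hc | ho
  · obtain ⟨w, hw⟩ := hc
    rw [hw z hz, ← hw p hp, hp0, norm_zero]
    exact one_pos
  · have hO : IsOpen (f '' ball 0 1) := ho _ subset_rfl isOpen_ball
    have h0O : (0:ℂ) ∈ f '' ball 0 1 := ⟨p, hp, hp0⟩
    have hpow : ∀ c ∈ f '' ball 0 1, ∀ d ∈ f '' ball 0 1, ∀ n : ℕ, c ^ n * d ∈ f '' ball 0 1 := by
      rintro c ⟨x, hx, rfl⟩ d hd n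
      induction n with
      | zero => rwa [pow_zero, one_mul]
      | succ n ih =>
        obtain ⟨y, hy, hy'⟩ := ih
        obtain ⟨w, hw, hw'⟩ := hm x hx y hy
        refine ⟨w, hw, ?_⟩
        rw [hw', hy', pow_succ]
        ring
    have key : ∀ c ∈ f '' ball 0 1, ‖c‖ ≤ 1 := by
      intro c hc
      by_contra hlt
      push Not at hlt
      obtain ⟨ε, hε, hεs⟩ := Metric.isOpen_iff.1 hO 0 h0O
      obtain ⟨n, hn⟩ := pow_unbounded_of_one_lt (1 / ε) hlt
      have hc0 : c ≠ 0 := by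
        intro h
        rw [h, norm_zero] at hlt
        linarith
      have hcn : c ^ n ≠ 0 := pow_ne_zero n hc0
      have hd : (c ^ n)⁻¹ ∈ f '' ball 0 1 := by
        apply hεs
        rw [mem_ball_zero_iff, norm_inv, norm_pow]
        rw [inv_lt_comm₀ (by positivity) hε, ← one_div]
        exact hn
      have := hpow c hc _ hd n
      rw [mul_inv_cancel₀ hcn] at this
      obtain ⟨x, hx, hx'⟩ := this
      exact h1 x hx hx'
    by_contra hlt
    push Not at hlt
    have hfz : f z ∈ f '' ball 0 1 := ⟨z, hz, rfl⟩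
    obtain ⟨ε, hε, hεs⟩ := Metric.isOpen_iff.1 hO _ hfz
    set t : ℝ := 1 + ε / (2 * ‖f z‖) with ht
    have hpos : 0 < ‖f z‖ := by linarith
    have ht1 : 1 < t := by
      rw [ht]
      have : 0 < ε / (2 * ‖f z‖) := by positivity
      linarith
    have hmem : (t : ℂ) * f z ∈ f '' ball 0 1 := by
      apply hεs
      rw [mem_ball, dist_eq_norm]
      have : (t : ℂ) * f z - f z = ((t - 1 : ℝ) : ℂ) * f z := by push_cast; ring
      rw [this, norm_mul, Complex.norm_real, Real.norm_eq_abs, abs_of_pos (by linarith), ht]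
      have : (1 + ε / (2 * ‖f z‖) - 1) * ‖f z‖ = ε / 2 := by field_simp; ring
      rw [this]
      linarith
    have := key _ hmem
    rw [norm_mul, Complex.norm_real, Real.norm_eq_abs, abs_of_pos (by linarith)] at this
    nlinarith

theorem UF_iff (c : ℂ) : UF (cst c) ↔ ‖c‖ < 1 := by
  constructor
  · rintro ⟨_, f, h1, h2, h3, h4⟩
    rw [not_isUnit_iff] at h1 h2
    rw [isUnit_iff] at h3
    obtain ⟨z, hz, hz0⟩ := h1
    rw [HD.sub_apply, cst_apply, sub_eq_zero] at hz0
    rw [← hz0]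
    refine range_disc f.diff h2 (fun z hz h => h3 z hz ?_) ?_ hz
    · rw [HD.sub_apply, h, HD.one_apply, sub_self]
    · intro z hz w hw
      have := h4 (cst (f.1 z)) (cst (f.1 w)) (CF_cst _) (CF_cst _)
        ((not_isUnit_iff _).2 ⟨z, hz, by rw [HD.sub_apply, cst_apply, sub_self]⟩)
        ((not_isUnit_iff _).2 ⟨w, hw, by rw [HD.sub_apply, cst_apply, sub_self]⟩)
      rw [not_isUnit_iff] at this
      obtain ⟨x, hx, hx0⟩ := this
      refine ⟨x, hx, ?_⟩
      rw [HD.sub_apply, HD.mul_apply, cst_apply, cst_apply, sub_eq_zero] at hx0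
      exact hx0
  · intro hc
    refine ⟨CF_cst c, idf, ?_, ?_, ?_, ?_⟩
    · exact (not_isUnit_iff _).2 ⟨c, mem_ball_zero_iff.2 hc, by
        rw [HD.sub_apply, idf_apply (mem_ball_zero_iff.2 hc), cst_apply, sub_self]⟩
    · exact (not_isUnit_iff _).2 ⟨0, zero_mem, idf_apply zero_mem⟩
    · refine (isUnit_iff _).2 fun z hz h => ?_
      rw [HD.sub_apply, idf_apply hz, HD.one_apply, sub_eq_zero] at h
      rw [h, mem_ball_zero_iff, norm_one] at hz
      exact lt_irrefl _ hz
    · intro y y' hy hy' h h'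
      obtain ⟨a, rfl⟩ := (CF_iff y).1 hy
      obtain ⟨b, rfl⟩ := (CF_iff y').1 hy'
      rw [not_isUnit_iff] at h h' ⊢
      obtain ⟨z, hz, hz0⟩ := h
      obtain ⟨w, hw, hw0⟩ := h'
      rw [HD.sub_apply, idf_apply hz, cst_apply, sub_eq_zero] at hz0
      rw [HD.sub_apply, idf_apply hw, cst_apply, sub_eq_zero] at hw0
      subst hz0 hw0
      have hzw : z * w ∈ ball (0:ℂ) 1 := by
        rw [mem_ball_zero_iff] at *
        rw [norm_mul]
        nlinarith [norm_nonneg z, norm_nonneg w]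
      exact ⟨z * w, hzw, by
        rw [HD.sub_apply, HD.mul_apply, idf_apply hzw, cst_apply, cst_apply, sub_self]⟩

/-- `|x| < |y|` for constants -/
def LF (x y : HD) : Prop := y ≠ 0 ∧ ∃ u, UF u ∧ x = u * y

theorem LF_iff (a b : ℂ) : LF (cst a) (cst b) ↔ ‖a‖ < ‖b‖ := by
  constructor
  · rintro ⟨h, u, hu, hx⟩
    obtain ⟨c, rfl⟩ := (CF_iff u).1 hu.1
    rw [UF_iff] at hu
    rw [← cst_mul] at hx
    have hab := cst_inj hx
    have hb : b ≠ 0 := by
      rintro rfl
      exact h cst_zero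
    rw [hab, norm_mul]
    have : 0 < ‖b‖ := norm_pos_iff.2 hb
    nlinarith
  · intro h
    have hb : b ≠ 0 := by
      rintro rfl
      rw [norm_zero] at h
      exact absurd h (not_lt.2 (norm_nonneg a))
    refine ⟨fun h0 => hb (cst_inj (h0.trans cst_zero.symm)), cst (a / b), (UF_iff _).2 ?_, ?_⟩
    · rw [norm_div, div_lt_one (norm_pos_iff.2 hb)]
      exact h
    · rw [← cst_mul, div_mul_cancel₀ _ hb]

/-- positive real constant -/
def PF (t : HD) : Prop := CF t ∧ (∃ j, CF j ∧ j * j + 1 = 0 ∧ ¬ LF (t - j) (t + j) ∧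
  ¬ LF (t + j) (t - j)) ∧ LF (t - 1) (t + 1)

theorem sq_norm_sub_I (a : ℂ) : ‖a + Complex.I‖ ^ 2 - ‖a - Complex.I‖ ^ 2 = 4 * a.im := by
  rw [Complex.sq_norm, Complex.sq_norm, Complex.normSq_apply, Complex.normSq_apply]
  simp only [Complex.add_re, Complex.add_im, Complex.sub_re, Complex.sub_im, Complex.I_re,
    Complex.I_im]
  ring

theorem sq_norm_sub_one (a : ℂ) : ‖a + 1‖ ^ 2 - ‖a - 1‖ ^ 2 = 4 * a.re := by
  rw [Complex.sq_norm, Complex.sq_norm, Complex.normSq_apply, Complex.normSq_apply]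
  simp only [Complex.add_re, Complex.add_im, Complex.sub_re, Complex.sub_im, Complex.one_re,
    Complex.one_im]
  ring

theorem PF_iff (t : HD) : PF t ↔ ∃ s : ℝ, 0 < s ∧ t = cst s := by
  constructor
  · rintro ⟨h1, ⟨j, hj, hj2, h2, h3⟩, h4⟩
    obtain ⟨a, rfl⟩ := (CF_iff t).1 h1
    obtain ⟨i, rfl⟩ := (CF_iff j).1 hj
    rw [← cst_add, ← cst_sub, LF_iff, not_lt] at h2
    rw [← cst_add, ← cst_sub, LF_iff, not_lt] at h3
    rw [← cst_one, ← cst_sub, ← cst_add, LF_iff] at h4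
    rw [← cst_one, ← cst_mul, ← cst_add, ← cst_zero] at hj2
    have hi := cst_inj hj2
    have heq : ‖a + i‖ = ‖a - i‖ := le_antisymm h2 h3
    have heq' : ‖a + Complex.I‖ = ‖a - Complex.I‖ := by
      have h5 : (i - Complex.I) * (i + Complex.I) = 0 := by
        have := Complex.I_sq
        linear_combination hi - this
      rcases mul_eq_zero.1 h5 with h | h
      · have : i = Complex.I := sub_eq_zero.1 h
        rw [← this]
        exact heq
      · have : i = -Complex.I := eq_neg_of_add_eq_zero_left h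
        rw [this, sub_neg_eq_add, ← sub_eq_add_neg] at heq
        exact heq.symm
    have him : a.im = 0 := by
      have := sq_norm_sub_I a
      rw [heq', sub_self] at this
      linarith
    have hre : 0 < a.re := by
      have := sq_norm_sub_one a
      nlinarith [norm_nonneg (a - 1), norm_nonneg (a + 1)]
    refine ⟨a.re, hre, ?_⟩
    congr 1
    apply Complex.ext
    · simp
    · simpa using him
  · rintro ⟨s, hs, rfl⟩
    refine ⟨CF_cst _, ⟨cst Complex.I, CF_cst _, ?_, ?_, ?_⟩, ?_⟩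
    · rw [← cst_one, ← cst_mul, ← cst_add, Complex.I_mul_I, ← cst_zero]
      congr 1
      ring
    · rw [← cst_add, ← cst_sub, LF_iff]
      have := sq_norm_sub_I (s : ℂ)
      rw [Complex.ofReal_im] at this
      intro h
      nlinarith [norm_nonneg ((s:ℂ) - Complex.I)]
    · rw [← cst_add, ← cst_sub, LF_iff]
      have := sq_norm_sub_I (s : ℂ)
      rw [Complex.ofReal_im] at this
      intro h
      nlinarith [norm_nonneg ((s:ℂ) + Complex.I)]
    · rw [← cst_one, ← cst_sub, ← cst_add, LF_iff]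
      have := sq_norm_sub_one (s : ℂ)
      rw [Complex.ofReal_re] at this
      by_contra h
      push Not at h
      nlinarith [norm_nonneg ((s:ℂ) + 1)]

/-- coordinate function -/
def ZF (z : HD) : Prop := ∀ c, CF c → (UF c → Irreducible (z - c)) ∧ (¬ UF c → IsUnit (z - c))

theorem ZF_idf : ZF idf := by
  intro c hc
  obtain ⟨a, rfl⟩ := (CF_iff c).1 hc
  rw [UF_iff]
  constructor
  · intro h
    exact irr_lin (mem_ball_zero_iff.2 h)
  · intro h
    refine (isUnit_iff _).2 fun z hz h0 => ?_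
    rw [HD.sub_apply, idf_apply hz, cst_apply, sub_eq_zero] at h0
    rw [h0, mem_ball_zero_iff] at hz
    exact h hz

theorem ZF.maps {z : HD} (hz : ZF z) {w : ℂ} (hw : w ∈ ball (0:ℂ) 1) :
    z.1 w ∈ ball (0:ℂ) 1 := by
  rw [mem_ball_zero_iff]
  by_contra h
  have := (hz (cst (z.1 w)) (CF_cst _)).2 (by rw [UF_iff]; exact h)
  rw [isUnit_iff] at this
  exact this w hw (by rw [HD.sub_apply, cst_apply, sub_self])

theorem ZF.pt {z : HD} (hz : ZF z) {c : ℂ} (hc : ‖c‖ < 1) :
    ∃ p, IsPt (z - cst c) p ∧ z.1 p = c := by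
  obtain ⟨p, hp⟩ := exists_pt ((hz (cst c) (CF_cst _)).1 ((UF_iff c).2 hc))
  refine ⟨p, hp, ?_⟩
  have := (hp.2 (z - cst c)).1 dvd_rfl
  rw [HD.sub_apply, cst_apply, sub_eq_zero] at this
  exact this

end Pool.Agent.H684R3
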