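import Mathlib

/-!
Semantic closure properties of the predicates on a ring that are first-order definable without
parameters.
-/

set_option autoImplicit false

namespace Pool.Agent.H684R3

open FirstOrder FirstOrder.Language FirstOrder.Ring

section

variable {R : Type} [CommRing R] [CompatibleRing R]

/-- the map on environments is given by a term -/
def TDef (f : (ℕ → R) → R) : Prop :=
  ∃ t : Language.ring.Term ℕ, ∀ v, t.realize v = f v

/-- the predicate on environments is given by a formula -/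
def PDef (P : (ℕ → R) → Prop) : Prop :=
  ∃ φ : Language.ring.Formula ℕ, ∀ v, φ.Realize v ↔ P v

theorem TDef.var (n : ℕ) : TDef (fun v : ℕ → R => v n) :=
  ⟨Term.var n, fun _ => rfl⟩

theorem TDef.add {f g : (ℕ → R) → R} (hf : TDef f) (hg : TDef g) : TDef (fun v => f v + g v) := by
  obtain ⟨t, ht⟩ := hf
  obtain ⟨s, hs⟩ := hg
  exact ⟨t + s, fun v => by rw [realize_add, ht, hs]⟩

theorem TDef.mul {f g : (ℕ → R) → R} (hf : TDef f) (hg : TDef g) : TDef (fun v => f v * g v) := by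
  obtain ⟨t, ht⟩ := hf
  obtain ⟨s, hs⟩ := hg
  exact ⟨t * s, fun v => by rw [realize_mul, ht, hs]⟩

theorem TDef.neg {f : (ℕ → R) → R} (hf : TDef f) : TDef (fun v => - f v) := by
  obtain ⟨t, ht⟩ := hf
  exact ⟨-t, fun v => by rw [realize_neg, ht]⟩

theorem TDef.sub {f g : (ℕ → R) → R} (hf : TDef f) (hg : TDef g) : TDef (fun v => f v - g v) := by
  simp only [sub_eq_add_neg]
  exact hf.add hg.neg

theorem TDef.zero : TDef (fun _ : ℕ → R => 0) := ⟨0, fun v => by rw [realize_zero]⟩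

theorem TDef.one : TDef (fun _ : ℕ → R => 1) := ⟨1, fun v => by rw [realize_one]⟩

theorem TDef.two : TDef (fun _ : ℕ → R => 2) := by
  have : (2 : R) = 1 + 1 := by norm_num
  simp only [this]
  exact TDef.one.add TDef.one

theorem TDef.subst {f : (ℕ → R) → R} (hf : TDef f) {ts : ℕ → (ℕ → R) → R}
    (h : ∀ n, TDef (ts n)) : TDef (fun v => f (fun n => ts n v)) := by
  obtain ⟨t, ht⟩ := hf
  choose s hs using h
  refine ⟨t.subst s, fun v => ?_⟩
  rw [Term.realize_subst]
  have h1 : (fun a => Term.realize v (s a)) = fun n => ts n v := by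
    funext n
    exact hs n v
  rw [h1, ht]

theorem PDef.eq {f g : (ℕ → R) → R} (hf : TDef f) (hg : TDef g) : PDef (fun v => f v = g v) := by
  obtain ⟨t, ht⟩ := hf
  obtain ⟨s, hs⟩ := hg
  refine ⟨t.equal s, fun v => ?_⟩
  rw [Formula.realize_equal, ht, hs]

theorem PDef.and {P Q : (ℕ → R) → Prop} (hP : PDef P) (hQ : PDef Q) :
    PDef (fun v => P v ∧ Q v) := by
  obtain ⟨φ, hφ⟩ := hP
  obtain ⟨ψ, hψ⟩ := hQ
  refine ⟨φ ⊓ ψ, fun v => ?_⟩
  rw [Formula.realize_inf, hφ, hψ]

theorem PDef.or {P Q : (ℕ → R) → Prop} (hP : PDef P) (hQ : PDef Q) :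
    PDef (fun v => P v ∨ Q v) := by
  obtain ⟨φ, hφ⟩ := hP
  obtain ⟨ψ, hψ⟩ := hQ
  refine ⟨φ ⊔ ψ, fun v => ?_⟩
  rw [Formula.realize_sup, hφ, hψ]

theorem PDef.not {P : (ℕ → R) → Prop} (hP : PDef P) : PDef (fun v => ¬ P v) := by
  obtain ⟨φ, hφ⟩ := hP
  refine ⟨∼φ, fun v => ?_⟩
  rw [Formula.realize_not, hφ]

theorem PDef.imp {P Q : (ℕ → R) → Prop} (hP : PDef P) (hQ : PDef Q) :
    PDef (fun v => P v → Q v) := by
  obtain ⟨φ, hφ⟩ := hP
  obtain ⟨ψ, hψ⟩ := hQ
  refine ⟨φ.imp ψ, fun v => ?_⟩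
  rw [Formula.realize_imp, hφ, hψ]

theorem PDef.iff {P Q : (ℕ → R) → Prop} (hP : PDef P) (hQ : PDef Q) :
    PDef (fun v => (P v ↔ Q v)) := by
  obtain ⟨φ, hφ⟩ := hP
  obtain ⟨ψ, hψ⟩ := hQ
  refine ⟨φ.iff ψ, fun v => ?_⟩
  rw [Formula.realize_iff, hφ, hψ]

/-- relabelling that binds variable `0` -/
def bindZero : ℕ → ℕ ⊕ Unit
  | 0 => Sum.inr ()
  | (n + 1) => Sum.inl n

theorem PDef.ex {P : R → (ℕ → R) → Prop} (hP : PDef (fun w => P (w 0) (fun n => w (n + 1)))) :
    PDef (fun v => ∃ x, P x v) := by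
  obtain ⟨φ, hφ⟩ := hP
  refine ⟨(φ.relabel bindZero).iExs Unit, fun v => ?_⟩
  rw [Formula.realize_iExs]
  constructor
  · rintro ⟨i, hi⟩
    rw [Formula.realize_relabel, hφ] at hi
    exact ⟨i (), hi⟩
  · rintro ⟨x, hx⟩
    refine ⟨fun _ => x, ?_⟩
    rw [Formula.realize_relabel, hφ]
    exact hx

theorem PDef.all {P : R → (ℕ → R) → Prop} (hP : PDef (fun w => P (w 0) (fun n => w (n + 1)))) :
    PDef (fun v => ∀ x, P x v) := by
  have h := (PDef.ex (P := fun x v => ¬ P x v) hP.not).not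
  obtain ⟨φ, hφ⟩ := h
  refine ⟨φ, fun v => (hφ v).trans ?_⟩
  simp

theorem PDef.subst {P : (ℕ → R) → Prop} (hP : PDef P) {ts : ℕ → (ℕ → R) → R}
    (h : ∀ n, TDef (ts n)) : PDef (fun v => P (fun n => ts n v)) := by
  obtain ⟨φ, hφ⟩ := hP
  choose s hs using h
  refine ⟨φ.subst s, fun v => ?_⟩
  rw [Formula.Realize]
  rw [BoundedFormula.realize_subst]
  have h1 : (fun a => Term.realize v (s a)) = fun n => ts n v := by
    funext n
    exact hs n v
  rw [h1]
  exact hφ _

theorem PDef.congr {P Q : (ℕ → R) → Prop} (hP : PDef P) (h : ∀ v, P v ↔ Q v) : PDef Q := by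
  obtain ⟨φ, hφ⟩ := hP
  exact ⟨φ, fun v => (hφ v).trans (h v)⟩

/-- unary definable relation -/
def Def1 (P : R → Prop) : Prop := PDef (fun v : ℕ → R => P (v 0))
/-- binary definable relation -/
def Def2 (P : R → R → Prop) : Prop := PDef (fun v : ℕ → R => P (v 0) (v 1))
/-- ternary definable relation -/
def Def3 (P : R → R → R → Prop) : Prop := PDef (fun v : ℕ → R => P (v 0) (v 1) (v 2))
/-- quaternary definable relation -/
def Def4 (P : R → R → R → R → Prop) : Prop :=
  PDef (fun v : ℕ → R => P (v 0) (v 1) (v 2) (v 3))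

theorem Def1.app {P : R → Prop} (hP : Def1 P) {f : (ℕ → R) → R} (hf : TDef f) :
    PDef (fun v => P (f v)) :=
  PDef.subst (P := fun v => P (v 0)) hP (ts := fun _ => f) (fun _ => hf)

theorem Def2.app {P : R → R → Prop} (hP : Def2 P) {f g : (ℕ → R) → R} (hf : TDef f)
    (hg : TDef g) : PDef (fun v => P (f v) (g v)) :=
  PDef.subst (P := fun v => P (v 0) (v 1)) hP
    (ts := fun n => match n with
      | 0 => f
      | _ => g) (fun n => by
        match n with
        | 0 => exact hf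
        | (n + 1) => exact hg)

theorem Def3.app {P : R → R → R → Prop} (hP : Def3 P) {f g h : (ℕ → R) → R} (hf : TDef f)
    (hg : TDef g) (hh : TDef h) : PDef (fun v => P (f v) (g v) (h v)) :=
  PDef.subst (P := fun v => P (v 0) (v 1) (v 2)) hP
    (ts := fun n => match n with
      | 0 => f
      | 1 => g
      | _ => h) (fun n => by
        match n with
        | 0 => exact hf
        | 1 => exact hg
        | (n + 2) => exact hh)

theorem Def4.app {P : R → R → R → R → Prop} (hP : Def4 P) {f g h k : (ℕ → R) → R} (hf : TDef f)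
    (hg : TDef g) (hh : TDef h) (hk : TDef k) : PDef (fun v => P (f v) (g v) (h v) (k v)) :=
  PDef.subst (P := fun v => P (v 0) (v 1) (v 2) (v 3)) hP
    (ts := fun n => match n with
      | 0 => f
      | 1 => g
      | 2 => h
      | _ => k) (fun n => by
        match n with
        | 0 => exact hf
        | 1 => exact hg
        | 2 => exact hh
        | (n + 3) => exact hk)

theorem def2_dvd : Def2 (fun x y : R => x ∣ y) := by
  have h : PDef (fun v : ℕ → R => ∃ c, v 1 = v 0 * c) :=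
    PDef.ex (P := fun c v => v 1 = v 0 * c)
      (PDef.eq (TDef.var 2) ((TDef.var 1).mul (TDef.var 0)))
  exact h.congr fun v => Iff.rfl

theorem def1_isUnit : Def1 (fun x : R => IsUnit x) := by
  have h : PDef (fun v : ℕ → R => v 0 ∣ 1) := def2_dvd.app (TDef.var 0) TDef.one
  exact h.congr fun v => isUnit_iff_dvd_one.symm

theorem def1_irreducible : Def1 (fun x : R => Irreducible x) := by
  have h : PDef (fun v : ℕ → R => ¬ IsUnit (v 0) ∧
      ∀ a, ∀ b, v 0 = a * b → (IsUnit a ∨ IsUnit b)) := by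
    refine PDef.and (def1_isUnit.app (TDef.var 0)).not ?_
    refine PDef.all (P := fun a v => ∀ b, v 0 = a * b → (IsUnit a ∨ IsUnit b)) ?_
    refine PDef.all (P := fun b w => w 1 = w 0 * b → (IsUnit (w 0) ∨ IsUnit b)) ?_
    exact PDef.imp (PDef.eq (TDef.var 2) ((TDef.var 1).mul (TDef.var 0)))
      (PDef.or (def1_isUnit.app (TDef.var 1)) (def1_isUnit.app (TDef.var 0)))
  refine h.congr fun v => ?_
  show _ ↔ Irreducible (v 0)
  rw [irreducible_iff]

end

end Pool.Agent.H684R3
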