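import Mathlib

set_option autoImplicit false

namespace Pool.Agent.H684R3.LW
open Polynomial NumberField IntermediateField

theorem exists_poly (F : Type) [Field F] [NumberField F] (hG : IsGalois ℚ F) :
    ∃ g : ℤ[X], g.Monic ∧ IsSplittingField ℚ F (g.map (Int.castRingHom ℚ)) := by
  obtain ⟨β, hβ⟩ := Field.exists_primitive_element ℚ F
  have hz : IsAlgebraic ℤ β :=
    (IsFractionRing.isAlgebraic_iff ℤ ℚ F).2 (Algebra.IsAlgebraic.isAlgebraic β)
  obtain ⟨y, hy, hint⟩ := hz.exists_integral_multiple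
  set α : F := y • β with hα
  have hyQ : (y : ℚ) ≠ 0 := by exact_mod_cast hy
  have hβα : β = (y : ℚ)⁻¹ • α := by
    have e : α = (y : ℚ) • β := by
      rw [hα, Algebra.smul_def, Algebra.smul_def]
      simp
    rw [e, smul_smul, inv_mul_cancel₀ hyQ, one_smul]
  have htop : ℚ⟮α⟯ = ⊤ := by
    rw [eq_top_iff, ← hβ, IntermediateField.adjoin_simple_le_iff, hβα]
    exact ℚ⟮α⟯.smul_mem (mem_adjoin_simple_self ℚ α)
  refine ⟨minpoly ℤ α, minpoly.monic hint, ?_⟩
  have hmap : (minpoly ℤ α).map (Int.castRingHom ℚ) = minpoly ℚ α :=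
    (minpoly.isIntegrallyClosed_eq_field_fractions' ℚ hint).symm
  rw [hmap]
  have hintQ : IsIntegral ℚ α := Algebra.IsIntegral.isIntegral α
  constructor
  · exact Normal.splits inferInstance α
  · have h1 : Algebra.adjoin ℚ ({α} : Set F) = ⊤ := by
      have h2 := IntermediateField.adjoin_simple_toSubalgebra_of_isAlgebraic hintQ.isAlgebraic
      rw [htop] at h2
      rw [← h2]
      rfl
    rw [eq_top_iff, ← h1]
    apply Algebra.adjoin_mono
    rw [Set.singleton_subset_iff, mem_rootSet]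
    exact ⟨minpoly.ne_zero hintQ, minpoly.aeval ℚ α⟩

end Pool.Agent.H684R3.LW
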