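import Pool.Agent.H684R3.Sch

/-!
The class of the functions on the disc omitting `0` and `1`: values at a point, given the value at
another point.
-/

set_option autoImplicit false

open Metric Set Filter Topology

namespace Pool.Agent.H684R3

theorem schottky_gen (M : ℝ) : ∃ C : ℝ, ∀ (f : ℂ → ℂ) (c : ℂ) (r : ℝ), 0 < r →
    DifferentiableOn ℂ f (ball c r) → (∀ z ∈ ball c r, f z ≠ 0 ∧ f z ≠ 1) → ‖f c‖ ≤ M →
    ∀ z ∈ ball c (r / 2), ‖f z‖ ≤ C := by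
  refine ⟨Real.exp (Real.pi * Real.exp (Real.pi * ((2 * M + 1) + 386))) + 1, ?_⟩
  intro f c r hr hf h01 hM z hz
  have hmaps : ∀ x ∈ ball (0:ℂ) 1, c + r * x ∈ ball c r := by
    intro x hx
    rw [mem_ball_zero_iff] at hx
    rw [mem_ball, dist_eq_norm]
    have : c + r * x - c = r * x := by ring
    rw [this, norm_mul, Complex.norm_real, Real.norm_eq_abs, abs_of_pos hr]
    nlinarith
  have hh : DifferentiableOn ℂ (fun x => 2 * f (c + r * x) - 1) (ball 0 1) := by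
    have h1 : DifferentiableOn ℂ (fun x : ℂ => c + r * x) (ball 0 1) := by fun_prop
    exact ((hf.comp h1 hmaps).const_mul 2).sub_const 1
  have hx : (z - c) / r ∈ ball (0:ℂ) (1/2) := by
    rw [mem_ball_zero_iff, norm_div, Complex.norm_real, Real.norm_eq_abs, abs_of_pos hr]
    rw [mem_ball, dist_eq_norm] at hz
    rw [div_lt_iff₀ hr]; linarith
  have h2 := Sch.schottky_unif hh
    (fun x hx h => (h01 _ (hmaps x hx)).2 (by linear_combination h / 2))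
    (fun x hx h => (h01 _ (hmaps x hx)).1 (by linear_combination h / 2)) (M := 2 * M + 1)
    (by
      have : ‖(2:ℂ) * f (c + r * 0) - 1‖ ≤ ‖(2:ℂ) * f (c + r * 0)‖ + ‖(1:ℂ)‖ := norm_sub_le _ _
      have h3 : ‖(2:ℂ) * f (c + r * 0)‖ = 2 * ‖f c‖ := by simp
      rw [h3, norm_one] at this
      show ‖(2:ℂ) * f (c + r * 0) - 1‖ ≤ _
      linarith) _ hx
  have e : c + r * ((z - c) / r) = z := by
    have : (r:ℂ) ≠ 0 := by exact_mod_cast hr.ne'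
    field_simp
    ring
  simp only [e] at h2
  have h4 : ‖2 * f z‖ ≤ ‖2 * f z - 1‖ + ‖(1:ℂ)‖ := by
    simpa using norm_add_le (2 * f z - 1) (1:ℂ)
  have h5 : ‖2 * f z‖ = 2 * ‖f z‖ := by simp
  rw [h5, norm_one] at h4
  have := norm_nonneg (f z)
  linarith

/-- holomorphic maps of the disc to the plane without `0` and `1` -/
def Om (u : ℂ → ℂ) : Prop :=
  DifferentiableOn ℂ u (ball 0 1) ∧ ∀ z ∈ ball (0:ℂ) 1, u z ≠ 0 ∧ u z ≠ 1

/-- values at `o` of the maps of the class with value `c` at `p` -/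
def V (p o c : ℂ) : Set ℂ := {w | ∃ u, Om u ∧ u p = c ∧ u o = w}

theorem Om.comp {u φ : ℂ → ℂ} (hu : Om u) (hφ : DifferentiableOn ℂ φ (ball 0 1))
    (hm : MapsTo φ (ball 0 1) (ball 0 1)) : Om (fun z => u (φ z)) :=
  ⟨hu.1.comp hφ hm, fun z hz => hu.2 _ (hm hz)⟩

theorem Om.scale {u : ℂ → ℂ} (hu : Om u) {l : ℂ} (hl : ‖l‖ ≤ 1) : Om (fun z => u (l * z)) := by
  refine hu.comp (φ := fun z => l * z) (by fun_prop) fun z hz => ?_
  rw [mem_ball_zero_iff] at hz ⊢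
  rw [norm_mul]
  nlinarith [norm_nonneg z, norm_nonneg l]

theorem sch_half (M : ℝ) : ∃ C : ℝ, 0 ≤ C ∧ ∀ u, Om u → ‖u 0‖ ≤ M →
    ∀ z ∈ ball (0:ℂ) (1/2), ‖u z‖ ≤ C := by
  obtain ⟨C, hC⟩ := schottky_gen M
  refine ⟨max C 0, le_max_right _ _, fun u hu hM z hz => ?_⟩
  exact (hC u 0 1 one_pos hu.1 hu.2 hM z hz).trans (le_max_left _ _)

theorem sch_all (M : ℝ) (n : ℕ) : ∃ C : ℝ, ∀ u, Om u → ‖u 0‖ ≤ M →
    ∀ z : ℂ, ‖z‖ ≤ 1 - (3/4 : ℝ) ^ n → ‖u z‖ ≤ C := by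
  induction n with
  | zero =>
    refine ⟨M, fun u _ hM z hz => ?_⟩
    have : z = 0 := by
      rw [pow_zero, sub_self] at hz
      exact norm_le_zero_iff.1 hz
    rw [this]
    exact hM
  | succ n ih =>
    obtain ⟨C, hC⟩ := ih
    obtain ⟨C', hC'⟩ := schottky_gen C
    refine ⟨max C C', fun u hu hM z hz => ?_⟩
    set r : ℝ := 1 - (3/4 : ℝ) ^ n with hr
    have hpow : (0:ℝ) < (3/4 : ℝ) ^ n := by positivity
    have hpow1 : (3/4 : ℝ) ^ n ≤ 1 := pow_le_one₀ (by norm_num) (by norm_num)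
    have hr0 : 0 ≤ r := by linarith
    have hr1 : r < 1 := by linarith
    by_cases h : ‖z‖ ≤ r
    · exact (hC u hu hM z h).trans (le_max_left _ _)
    · push Not at h
      have hz0 : 0 < ‖z‖ := lt_of_le_of_lt hr0 h
      have hzc : (‖z‖ : ℂ) ≠ 0 := by exact_mod_cast hz0.ne'
      set c : ℂ := (r / ‖z‖ : ℝ) * z with hc
      have hcn : ‖c‖ = r := by
        rw [hc, norm_mul, Complex.norm_real, Real.norm_eq_abs, abs_of_nonneg (by positivity)]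
        field_simp
      have hzcn : ‖z - c‖ = ‖z‖ - r := by
        have : z - c = ((1 - r / ‖z‖ : ℝ) : ℂ) * z := by rw [hc]; push_cast; ring
        rw [this, norm_mul, Complex.norm_real, Real.norm_eq_abs, abs_of_nonneg]
        · field_simp
        · rw [sub_nonneg, div_le_one hz0]
          exact h.le
      have hsub : ball c (1 - r) ⊆ ball (0:ℂ) 1 := by
        intro x hx
        rw [mem_ball, dist_eq_norm] at hx
        rw [mem_ball_zero_iff]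
        have := norm_add_le (x - c) c
        rw [sub_add_cancel, hcn] at this
        linarith
      refine (hC' u c (1 - r) (by linarith) (hu.1.mono hsub) (fun x hx => hu.2 x (hsub hx))
        (hC u hu hM c hcn.le) z ?_).trans (le_max_right _ _)
      rw [mem_ball, dist_eq_norm, hzcn]
      have : (3/4 : ℝ) ^ (n+1) = (3/4) ^ n * (3/4) := pow_succ _ _
      rw [this] at hz
      linarith

theorem sch_lt (M : ℝ) {s : ℝ} (hs : s < 1) : ∃ C : ℝ, ∀ u, Om u → ‖u 0‖ ≤ M →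
    ∀ z : ℂ, ‖z‖ ≤ s → ‖u z‖ ≤ C := by
  obtain ⟨n, hn⟩ := exists_pow_lt_of_lt_one (sub_pos.2 hs) (by norm_num : (3/4 : ℝ) < 1)
  obtain ⟨C, hC⟩ := sch_all M n
  exact ⟨C, fun u hu hM z hz => hC u hu hM z (by linarith)⟩

theorem taylor2 (M : ℝ) : ∃ K : ℝ, 0 < K ∧ ∀ u, Om u → ‖u 0‖ ≤ M →
    ‖deriv u 0‖ ≤ K ∧ ∀ z ∈ ball (0:ℂ) (1/2), ‖u z - u 0 - deriv u 0 * z‖ ≤ K * ‖z‖ ^ 2 := by
  obtain ⟨C, hC0, hC⟩ := sch_half M
  set A : ℝ := C + |M| with hA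
  have hA0 : 0 ≤ A := by positivity
  refine ⟨8 * A + 1, by positivity, fun u hu hM => ?_⟩
  have hMM : ‖u 0‖ ≤ |M| := hM.trans (le_abs_self M)
  have hsub : ball (0:ℂ) (1/2) ⊆ ball 0 1 := ball_subset_ball (by norm_num)
  have hmaps : MapsTo u (ball (0:ℂ) (1/2)) (closedBall (u 0) A) := by
    intro z hz
    rw [mem_closedBall, dist_eq_norm]
    have := norm_sub_le (u z) (u 0)
    have := hC u hu hM z hz
    linarith
  have hds : ∀ z ∈ ball (0:ℂ) (1/2), ‖dslope u 0 z‖ ≤ 2 * A := by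
    intro z hz
    have := Complex.norm_dslope_le_div_of_mapsTo_ball (hu.1.mono hsub) hmaps hz
    have e : A / (1/2) = 2 * A := by ring
    rwa [e] at this
  have h0h : (0:ℂ) ∈ ball (0:ℂ) (1/2) := mem_ball_self (by norm_num)
  have hd : DifferentiableOn ℂ (dslope u 0) (ball (0:ℂ) (1/2)) :=
    ((Complex.differentiableOn_dslope (isOpen_ball.mem_nhds (mem_ball_self one_pos))).2 hu.1).mono
      hsub
  have hmaps2 : MapsTo (dslope u 0) (ball (0:ℂ) (1/2)) (closedBall (dslope u 0 0) (4 * A)) := by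
    intro z hz
    rw [mem_closedBall, dist_eq_norm]
    have := norm_sub_le (dslope u 0 z) (dslope u 0 0)
    have := hds z hz
    have := hds 0 h0h
    linarith
  have hd0 : dslope u 0 0 = deriv u 0 := dslope_same _ _
  constructor
  · rw [← hd0]
    have := hds 0 h0h
    linarith
  · intro z hz
    have h1 := Complex.dist_le_div_mul_dist_of_mapsTo_ball hd hmaps2 hz
    rw [dist_eq_norm, dist_eq_norm, sub_zero, hd0] at h1
    have h2 : u z - u 0 = z * dslope u 0 z := by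
      have := sub_smul_dslope u 0 z
      rw [sub_zero, smul_eq_mul] at this
      exact this.symm
    have h3 : u z - u 0 - deriv u 0 * z = z * (dslope u 0 z - deriv u 0) := by
      rw [h2]; ring
    rw [h3, norm_mul]
    have e : 4 * A / (1/2) = 8 * A := by ring
    rw [e] at h1
    have h4 := norm_nonneg z
    nlinarith [mul_le_mul_of_nonneg_left h1 h4, sq_nonneg ‖z‖]

/-- one half of the comparison of two value sets -/
theorem half_core {M K : ℝ} (hK : ∀ u, Om u → ‖u 0‖ ≤ M →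
    ‖deriv u 0‖ ≤ K ∧ ∀ z ∈ ball (0:ℂ) (1/2), ‖u z - u 0 - deriv u 0 * z‖ ≤ K * ‖z‖ ^ 2)
    {c₁ c₂ : ℂ} (h1 : ‖c₁‖ ≤ M) (h2 : ‖c₂‖ ≤ M) {ε : ℝ} (hε : 0 < ε) (hε2 : ε < 1/2)
    (hV : V 0 ε c₁ ⊆ V 0 ε c₂) (hc1 : c₁ ≠ 0 ∧ c₁ ≠ 1) (hne : c₁ ≠ c₂) :
    sSup {x | ∃ u, Om u ∧ u 0 = c₁ ∧ ‖deriv u 0‖ = x} * ε + ‖c₁ - c₂‖ ≤
      sSup {x | ∃ u, Om u ∧ u 0 = c₂ ∧ ‖deriv u 0‖ = x} * ε + 2 * K * ε ^ 2 := by
  set L₂ := sSup {x | ∃ u, Om u ∧ u 0 = c₂ ∧ ‖deriv u 0‖ = x} with hL₂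
  have hbdd : BddAbove {x | ∃ u, Om u ∧ u 0 = c₂ ∧ ‖deriv u 0‖ = x} := by
    refine ⟨K, ?_⟩
    rintro x ⟨u, hu, hu0, rfl⟩
    exact (hK u hu (by rw [hu0]; exact h2)).1
  have hd : 0 < ‖c₁ - c₂‖ := norm_pos_iff.2 (sub_ne_zero.2 hne)
  have key : ∀ u, Om u → u 0 = c₁ →
      ‖deriv u 0‖ * ε + ‖c₁ - c₂‖ ≤ L₂ * ε + 2 * K * ε ^ 2 := by
    intro u hu hu0
    set β := deriv u 0 with hβ
    obtain ⟨l, hl1, hl2⟩ : ∃ l : ℂ, ‖l‖ = 1 ∧ β * l = ‖β‖ * ((c₁ - c₂) / ‖c₁ - c₂‖) := by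
      by_cases hb : β = 0
      · exact ⟨1, norm_one, by rw [hb]; simp⟩
      · have hb' : (‖β‖ : ℂ) ≠ 0 := by
          exact_mod_cast (norm_ne_zero_iff.2 hb)
        refine ⟨‖β‖ / β * ((c₁ - c₂) / ‖c₁ - c₂‖), ?_, ?_⟩
        · rw [norm_mul, norm_div, norm_div, Complex.norm_real, Complex.norm_real, norm_norm,
            norm_norm, div_self (norm_ne_zero_iff.2 hb), div_self hd.ne', one_mul]
        · field_simp
    have hlε : l * ε ∈ ball (0:ℂ) (1/2) := by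
      rw [mem_ball_zero_iff, norm_mul, hl1, one_mul, Complex.norm_real, Real.norm_eq_abs,
        abs_of_pos hε]
      exact hε2
    have hεb : (ε:ℂ) ∈ ball (0:ℂ) (1/2) := by
      rw [mem_ball_zero_iff, Complex.norm_real, Real.norm_eq_abs, abs_of_pos hε]
      exact hε2
    have hmem : u (l * ε) ∈ V 0 ε c₁ :=
      ⟨fun z => u (l * z), hu.scale hl1.le, by simp only [mul_zero]; exact hu0, rfl⟩
    obtain ⟨v, hv, hv0, hvε⟩ := hV hmem
    have e1 := (hK u hu (by rw [hu0]; exact h1)).2 _ hlε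
    have e2 := (hK v hv (by rw [hv0]; exact h2)).2 _ hεb
    have e3 : ‖deriv v 0‖ ≤ L₂ := le_csSup hbdd ⟨v, hv, hv0, rfl⟩
    have n1 : ‖l * (ε:ℂ)‖ = ε := by
      rw [norm_mul, hl1, one_mul, Complex.norm_real, Real.norm_eq_abs, abs_of_pos hε]
    have n2 : ‖(ε:ℂ)‖ = ε := by
      rw [Complex.norm_real, Real.norm_eq_abs, abs_of_pos hε]
    rw [n1, hu0] at e1
    rw [n2, hv0, hvε] at e2
    have e4 : ‖deriv v 0 * ε‖ ≤ L₂ * ε := by
      rw [norm_mul, n2]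
      exact mul_le_mul_of_nonneg_right e3 hε.le
    have e5 : β * (l * ε) + (c₁ - c₂) =
        ((‖β‖ * ε + ‖c₁ - c₂‖ : ℝ) : ℂ) * ((c₁ - c₂) / ‖c₁ - c₂‖) := by
      rw [← mul_assoc, hl2]
      have : (‖c₁ - c₂‖ : ℂ) ≠ 0 := by exact_mod_cast hd.ne'
      push_cast
      field_simp
    have e6 : ‖β * (l * ε) + (c₁ - c₂)‖ = ‖β‖ * ε + ‖c₁ - c₂‖ := by
      rw [e5, norm_mul, norm_div, Complex.norm_real, Complex.norm_real, norm_norm,
        div_self hd.ne', mul_one, Real.norm_eq_abs, abs_of_nonneg (by positivity)]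
    have e7 : β * (l * ε) + (c₁ - c₂) = -(u (l * ε) - c₁ - β * (l * ε)) +
        (u (l * ε) - c₂ - deriv v 0 * ε) + deriv v 0 * ε := by ring
    rw [← e6, e7]
    have := norm_add₃_le (a := -(u (l * ε) - c₁ - β * (l * ε)))
      (b := (u (l * ε) - c₂ - deriv v 0 * ε)) (c := deriv v 0 * ε)
    rw [norm_neg] at this
    linarith
  have hne1 : {x | ∃ u, Om u ∧ u 0 = c₁ ∧ ‖deriv u 0‖ = x}.Nonempty :=
    ⟨_, fun _ => c₁, ⟨differentiableOn_const _, fun _ _ => hc1⟩, rfl, rfl⟩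
  have hsup : sSup {x | ∃ u, Om u ∧ u 0 = c₁ ∧ ‖deriv u 0‖ = x} ≤
      (L₂ * ε + 2 * K * ε ^ 2 - ‖c₁ - c₂‖) / ε := by
    refine csSup_le hne1 ?_
    rintro x ⟨u, hu, hu0, rfl⟩
    rw [le_div_iff₀ hε]
    have := key u hu hu0
    linarith
  rw [le_div_iff₀ hε] at hsup
  linarith

theorem core {M K : ℝ} (hK : ∀ u, Om u → ‖u 0‖ ≤ M →
    ‖deriv u 0‖ ≤ K ∧ ∀ z ∈ ball (0:ℂ) (1/2), ‖u z - u 0 - deriv u 0 * z‖ ≤ K * ‖z‖ ^ 2)
    {c₁ c₂ : ℂ} (h1 : ‖c₁‖ ≤ M) (h2 : ‖c₂‖ ≤ M) {ε : ℝ} (hε : 0 < ε) (hε2 : ε < 1/2)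
    (hV : V 0 ε c₁ = V 0 ε c₂) (hc1 : c₁ ≠ 0 ∧ c₁ ≠ 1) (hc2 : c₂ ≠ 0 ∧ c₂ ≠ 1)
    (hne : c₁ ≠ c₂) : ‖c₁ - c₂‖ ≤ 2 * K * ε ^ 2 := by
  have a1 := half_core hK h1 h2 hε hε2 hV.subset hc1 hne
  have a2 := half_core hK h2 h1 hε hε2 hV.symm.subset hc2 hne.symm
  rw [norm_sub_rev c₂ c₁] at a2
  linarith

theorem exists_ne {g : ℂ → ℂ} (hg : Om g) (hg' : deriv g 0 ≠ 0) :
    ∃ ε : ℝ, 0 < ε ∧ ε < 1/2 ∧ V 0 ε (g ε) ≠ V 0 ε (g (-ε)) := by
  by_contra hcon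
  push Not at hcon
  obtain ⟨M, hM0, hM⟩ := sch_half ‖g 0‖
  obtain ⟨K, hK0, hK⟩ := taylor2 M
  obtain ⟨K', hK'0, hK'⟩ := taylor2 ‖g 0‖
  have hβ : 0 < ‖deriv g 0‖ := norm_pos_iff.2 hg'
  set ε : ℝ := min (1/4) (‖deriv g 0‖ / (2 * (K + K'))) with hε
  have hε0 : 0 < ε := by positivity
  have hε1 : ε < 1/2 := lt_of_le_of_lt (min_le_left _ _) (by norm_num)
  have n2 : ‖(ε:ℂ)‖ = ε := by
    rw [Complex.norm_real, Real.norm_eq_abs, abs_of_pos hε0]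
  have hb1 : (ε:ℂ) ∈ ball (0:ℂ) (1/2) := by rw [mem_ball_zero_iff, n2]; exact hε1
  have hb2 : (-ε:ℂ) ∈ ball (0:ℂ) (1/2) := by rw [mem_ball_zero_iff, norm_neg, n2]; exact hε1
  have hsub : ball (0:ℂ) (1/2) ⊆ ball 0 1 := ball_subset_ball (by norm_num)
  have t1 := (hK' g hg le_rfl).2 _ hb1
  have t2 := (hK' g hg le_rfl).2 _ hb2
  rw [n2] at t1
  rw [norm_neg, n2] at t2
  have hdiff : ‖g ε - g (-ε)‖ ≤ 2 * K * ε ^ 2 := by
    by_cases hne : g ε = g (-ε)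
    · rw [hne, sub_self, norm_zero]
      positivity
    · exact core hK (hM g hg le_rfl _ hb1) (hM g hg le_rfl _ hb2) hε0 hε1
        (hcon ε hε0 hε1) (hg.2 _ (hsub hb1)) (hg.2 _ (hsub hb2)) hne
  have e1 : deriv g 0 * (2 * ε) = (g ε - g (-ε)) - (g ε - g 0 - deriv g 0 * ε) +
      (g (-ε) - g 0 - deriv g 0 * (-ε)) := by ring
  have e2 : ‖deriv g 0‖ * (2 * ε) ≤ 2 * K * ε ^ 2 + K' * ε ^ 2 + K' * ε ^ 2 := by
    have h3 : ‖deriv g 0 * (2 * ε)‖ = ‖deriv g 0‖ * (2 * ε) := by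
      rw [norm_mul, norm_mul, n2]
      norm_num
    rw [← h3, e1]
    refine (norm_add_le _ _).trans (add_le_add ((norm_sub_le _ _).trans (add_le_add hdiff t1)) t2)
  have e3 : ‖deriv g 0‖ ≤ (K + K') * ε := by
    have : ‖deriv g 0‖ * (2 * ε) ≤ ((K + K') * ε) * (2 * ε) := by nlinarith
    exact le_of_mul_le_mul_right this (by positivity)
  have e4 : ε ≤ ‖deriv g 0‖ / (2 * (K + K')) := min_le_right _ _
  rw [le_div_iff₀ (by positivity)] at e4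
  nlinarith

theorem V_mono {η η' c : ℂ} (h : ‖η‖ ≤ ‖η'‖) : V 0 η c ⊆ V 0 η' c := by
  by_cases h0 : η' = 0
  · have : η = 0 := by
      rw [h0, norm_zero] at h
      exact norm_le_zero_iff.1 h
    rw [this, h0]
  · rintro w ⟨u, hu, hu0, hw⟩
    refine ⟨fun z => u (η / η' * z), hu.scale ?_, by simp only [mul_zero]; exact hu0, ?_⟩
    · rw [norm_div]
      exact div_le_one_of_le₀ h (norm_nonneg _)
    · simp only
      rw [div_mul_cancel₀ _ h0]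
      exact hw

theorem V_rot {η η' c : ℂ} (h : ‖η‖ = ‖η'‖) : V 0 η c = V 0 η' c :=
  Subset.antisymm (V_mono h.le) (V_mono h.symm.le)

theorem V_ne_of_lt {η η' : ℂ} (hη' : η' ∈ ball (0:ℂ) 1) (h : ‖η‖ < ‖η'‖) :
    V 0 η 2 ≠ V 0 η' 2 := by
  intro hV
  rw [mem_ball_zero_iff] at hη'
  have hpos : 0 < ‖η'‖ := lt_of_le_of_lt (norm_nonneg _) h
  have hη'0 : η' ≠ 0 := norm_pos_iff.1 hpos
  obtain ⟨C, hC⟩ := sch_lt 2 hη'
  set S : Set ℝ := {x | ∃ w ∈ V 0 η' 2, ‖w - 2‖ = x} with hS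
  have hbdd : BddAbove S := by
    refine ⟨C + 2, ?_⟩
    rintro x ⟨w, ⟨u, hu, hu0, hw⟩, rfl⟩
    have h1 := hC u hu (by rw [hu0]; norm_num) η' le_rfl
    have h2 := norm_sub_le w 2
    rw [hw] at h1
    have h3 : ‖(2:ℂ)‖ = 2 := by norm_num
    linarith
  set m := sSup S with hm
  have hmem : 2 + η' / 2 ∈ V 0 η' 2 := by
    refine ⟨fun z => 2 + z / 2, ⟨by fun_prop, fun z hz => ?_⟩, by simp, rfl⟩
    rw [mem_ball_zero_iff] at hz
    constructor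
    · intro h0
      have : z = -4 := by linear_combination 2 * h0
      rw [this] at hz
      norm_num at hz
    · intro h0
      have : z = -2 := by linear_combination 2 * h0
      rw [this] at hz
      norm_num at hz
  have hmpos : 0 < m := by
    have h1 : ‖2 + η' / 2 - 2‖ ≤ m := le_csSup hbdd ⟨_, hmem, rfl⟩
    have h2 : ‖2 + η' / 2 - 2‖ = ‖η'‖ / 2 := by
      rw [add_sub_cancel_left, norm_div]; norm_num
    rw [h2] at h1
    linarith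
  have hle : m ≤ m / ‖η'‖ * ‖η‖ := by
    refine csSup_le ⟨_, _, hmem, rfl⟩ ?_
    rintro x ⟨w, hw, rfl⟩
    rw [← hV] at hw
    obtain ⟨u, hu, hu0, hw⟩ := hw
    have hsub : ball (0:ℂ) ‖η'‖ ⊆ ball 0 1 := ball_subset_ball hη'.le
    have hmaps : MapsTo u (ball (0:ℂ) ‖η'‖) (closedBall (u 0) m) := by
      intro z hz
      rw [mem_closedBall, dist_eq_norm, hu0]
      rw [mem_ball_zero_iff] at hz
      exact le_csSup hbdd ⟨_, V_mono hz.le ⟨u, hu, hu0, rfl⟩, rfl⟩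
    have := Complex.dist_le_div_mul_dist_of_mapsTo_ball (hu.1.mono hsub) hmaps
      (z := η) (by rw [mem_ball_zero_iff]; exact h)
    rw [dist_eq_norm, dist_eq_norm, sub_zero, hu0, hw] at this
    exact this
  have hlt : m / ‖η'‖ * ‖η‖ < m := by
    rw [div_mul_eq_mul_div, div_lt_iff₀ hpos]
    exact mul_lt_mul_of_pos_left h hmpos
  linarith

theorem norm_eq_of_V {η η' : ℂ} (hη : η ∈ ball (0:ℂ) 1) (hη' : η' ∈ ball (0:ℂ) 1)
    (hV : V 0 η 2 = V 0 η' 2) : ‖η‖ = ‖η'‖ := by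
  rcases lt_trichotomy ‖η‖ ‖η'‖ with h | h | h
  · exact absurd hV (V_ne_of_lt hη' h)
  · exact h
  · exact absurd hV.symm (V_ne_of_lt hη h)

end Pool.Agent.H684R3
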