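import Pool.Agent.H684R3.Fo

/-!
The ring of holomorphic functions on the unit disc.
-/

set_option autoImplicit false

namespace Pool.Agent.H684R3

open Metric Set

/-- the ring of holomorphic functions on the unit disc -/
abbrev HD := ↥(Subring.closure {g : ℂ → ℂ | DifferentiableOn ℂ g (Metric.ball (0:ℂ) 1) ∧
                ∀ z ∉ Metric.ball (0:ℂ) 1, g z = g 0})

theorem mem_HD (g : ℂ → ℂ) :
    g ∈ Subring.closure {g : ℂ → ℂ | DifferentiableOn ℂ g (Metric.ball (0:ℂ) 1) ∧
                ∀ z ∉ Metric.ball (0:ℂ) 1, g z = g 0} ↔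
    DifferentiableOn ℂ g (Metric.ball (0:ℂ) 1) ∧ ∀ z ∉ Metric.ball (0:ℂ) 1, g z = g 0 := by
  constructor
  · intro h
    induction h using Subring.closure_induction with
    | mem x hx => exact hx
    | zero => exact ⟨differentiableOn_const 0, fun _ _ => rfl⟩
    | one => exact ⟨differentiableOn_const 1, fun _ _ => rfl⟩
    | add x y _ _ hx hy =>
      exact ⟨hx.1.add hy.1, fun z hz => by simp only [Pi.add_apply, hx.2 z hz, hy.2 z hz]⟩
    | neg x _ hx => exact ⟨hx.1.neg, fun z hz => by simp only [Pi.neg_apply, hx.2 z hz]⟩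
    | mul x y _ _ hx hy =>
      exact ⟨hx.1.mul hy.1, fun z hz => by simp only [Pi.mul_apply, hx.2 z hz, hy.2 z hz]⟩
  · intro h
    exact Subring.subset_closure h

theorem HD.diff (f : HD) : DifferentiableOn ℂ f.1 (ball 0 1) := ((mem_HD f.1).1 f.2).1

theorem zero_mem : (0:ℂ) ∈ ball (0:ℂ) 1 := mem_ball_self one_pos

theorem HD.ext' {f g : HD} (h : ∀ z ∈ ball (0:ℂ) 1, f.1 z = g.1 z) : f = g := by
  apply Subtype.ext
  funext z
  by_cases hz : z ∈ ball (0:ℂ) 1
  · exact h z hz
  · rw [((mem_HD f.1).1 f.2).2 z hz, ((mem_HD g.1).1 g.2).2 z hz]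
    exact h 0 zero_mem

open scoped Classical in
/-- the element of the ring given by a holomorphic function -/
noncomputable def mkH (g : ℂ → ℂ) (hg : DifferentiableOn ℂ g (ball 0 1)) : HD :=
  ⟨fun z => if z ∈ ball (0:ℂ) 1 then g z else g 0, (mem_HD _).2 ⟨by
    refine hg.congr fun z hz => ?_
    rw [if_pos hz], fun z hz => by
      rw [if_neg hz, if_pos zero_mem]⟩⟩

theorem mkH_apply {g : ℂ → ℂ} (hg : DifferentiableOn ℂ g (ball 0 1)) {z : ℂ}
    (hz : z ∈ ball (0:ℂ) 1) : (mkH g hg).1 z = g z := by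
  simp only [mkH]
  rw [if_pos hz]

@[simp] theorem HD.add_apply (f g : HD) (z : ℂ) : (f + g).1 z = f.1 z + g.1 z := rfl
@[simp] theorem HD.mul_apply (f g : HD) (z : ℂ) : (f * g).1 z = f.1 z * g.1 z := rfl
@[simp] theorem HD.sub_apply (f g : HD) (z : ℂ) : (f - g).1 z = f.1 z - g.1 z := rfl
@[simp] theorem HD.neg_apply (f : HD) (z : ℂ) : (-f).1 z = -f.1 z := rfl
@[simp] theorem HD.one_apply (z : ℂ) : (1 : HD).1 z = 1 := rfl
@[simp] theorem HD.zero_apply (z : ℂ) : (0 : HD).1 z = 0 := rfl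

/-- constant functions -/
noncomputable def cst (c : ℂ) : HD := ⟨fun _ => c, (mem_HD _).2 ⟨differentiableOn_const c, fun _ _ => rfl⟩⟩

@[simp] theorem cst_apply (c z : ℂ) : (cst c).1 z = c := rfl

theorem cst_add (a b : ℂ) : cst (a + b) = cst a + cst b := rfl
theorem cst_mul (a b : ℂ) : cst (a * b) = cst a * cst b := rfl
theorem cst_sub (a b : ℂ) : cst (a - b) = cst a - cst b := rfl
theorem cst_one : cst 1 = 1 := rfl
theorem cst_zero : cst 0 = 0 := rfl
theorem cst_two : cst 2 = 2 := by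
  have : (2 : HD) = 1 + 1 := by norm_num
  rw [this, ← cst_one, ← cst_add]
  norm_num

theorem cst_inj {a b : ℂ} (h : cst a = cst b) : a = b := by
  have := congrArg (fun f : HD => f.1 0) h
  simpa using this

/-- the coordinate function -/
noncomputable def idf : HD := mkH id differentiableOn_id

theorem idf_apply {z : ℂ} (hz : z ∈ ball (0:ℂ) 1) : idf.1 z = z := mkH_apply _ hz

theorem isUnit_iff (f : HD) : IsUnit f ↔ ∀ z ∈ ball (0:ℂ) 1, f.1 z ≠ 0 := by
  constructor
  · intro h z _ h0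
    obtain ⟨g, hg⟩ := isUnit_iff_exists_inv.1 h
    have := congrArg (fun f : HD => f.1 z) hg
    simp only [HD.mul_apply, HD.one_apply, h0, zero_mul] at this
    exact zero_ne_one this
  · intro h
    refine isUnit_iff_exists_inv.2 ⟨mkH (fun z => (f.1 z)⁻¹) (f.diff.inv h), HD.ext' fun z hz => ?_⟩
    rw [HD.mul_apply, mkH_apply _ hz, HD.one_apply, mul_inv_cancel₀ (h z hz)]

theorem dvd_lin {a : ℂ} (ha : a ∈ ball (0:ℂ) 1) (f : HD) : (idf - cst a) ∣ f ↔ f.1 a = 0 := by
  constructor
  · rintro ⟨g, rfl⟩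
    rw [HD.mul_apply, HD.sub_apply, idf_apply ha, cst_apply, sub_self, zero_mul]
  · intro h
    have hd : DifferentiableOn ℂ (dslope f.1 a) (ball 0 1) :=
      (Complex.differentiableOn_dslope (isOpen_ball.mem_nhds ha)).2 f.diff
    refine ⟨mkH _ hd, HD.ext' fun z hz => ?_⟩
    rw [HD.mul_apply, HD.sub_apply, idf_apply hz, cst_apply, mkH_apply _ hz]
    have := sub_smul_dslope f.1 a z
    rw [smul_eq_mul, h, sub_zero] at this
    exact this.symm

theorem irr_lin {a : ℂ} (ha : a ∈ ball (0:ℂ) 1) : Irreducible (idf - cst a) := by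
  refine irreducible_iff.2 ⟨fun h => ?_, fun {p q} h => ?_⟩
  · have := (isUnit_iff _).1 h a ha
    rw [HD.sub_apply, idf_apply ha, cst_apply, sub_self] at this
    exact this rfl
  · have key : ∀ p q : HD, idf - cst a = p * q → p.1 a = 0 → IsUnit q := by
      intro p q h hp
      obtain ⟨r, hr⟩ := (dvd_lin ha p).2 hp
      refine (isUnit_iff _).2 fun z hz hq => ?_
      have hz1 := congrArg (fun f : HD => f.1 z) h
      simp only [HD.sub_apply, HD.mul_apply, cst_apply, hq, mul_zero] at hz1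
      rw [idf_apply hz, sub_eq_zero] at hz1
      subst hz1
      -- derivative at `a` : (z - a) = (z-a) r q
      have h2 : (idf - cst z) * 1 = (idf - cst z) * (r * q) := by
        rw [mul_one, ← mul_assoc, ← hr, h]
      have h3 : ∀ w ∈ ball (0:ℂ) 1, w ≠ z → r.1 w * q.1 w = 1 := by
        intro w hw hne
        have h4 := congrArg (fun f : HD => f.1 w) h2
        simp only [HD.sub_apply, HD.mul_apply, HD.one_apply, cst_apply] at h4
        rw [idf_apply hw] at h4
        exact (mul_left_cancel₀ (sub_ne_zero.2 hne) h4).symm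
      have hc1 : ContinuousAt (fun w => r.1 w * q.1 w) z :=
        ((r.diff.mul q.diff).differentiableAt (isOpen_ball.mem_nhds ha)).continuousAt
      have hev : ∀ᶠ w in nhdsWithin z {z}ᶜ, r.1 w * q.1 w = 1 := by
        have : ball (0:ℂ) 1 ∈ nhds z := isOpen_ball.mem_nhds ha
        filter_upwards [mem_nhdsWithin_of_mem_nhds this, self_mem_nhdsWithin] with w hw hne
        exact h3 w hw hne
      have hlim : Filter.Tendsto (fun w => r.1 w * q.1 w) (nhdsWithin z {z}ᶜ)
          (nhds (r.1 z * q.1 z)) := hc1.tendsto.mono_left nhdsWithin_le_nhds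
      have hlim2 : Filter.Tendsto (fun w => r.1 w * q.1 w) (nhdsWithin z {z}ᶜ) (nhds 1) :=
        tendsto_const_nhds.congr' (hev.mono fun w hw => hw.symm)
      have := tendsto_nhds_unique hlim hlim2
      rw [hq, mul_zero] at this
      exact zero_ne_one this
    have h0 := congrArg (fun f : HD => f.1 a) h
    simp only [HD.sub_apply, HD.mul_apply, cst_apply] at h0
    rw [idf_apply ha, sub_self] at h0
    rcases mul_eq_zero.1 h0.symm with hp | hq
    · exact Or.inr (key p q h hp)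
    · exact Or.inl (key q p (by rw [h, mul_comm]) hq)

/-- `q` is a generator of the ideal of the functions vanishing at `a`. -/
def IsPt (q : HD) (a : ℂ) : Prop := a ∈ ball (0:ℂ) 1 ∧ ∀ f : HD, q ∣ f ↔ f.1 a = 0

theorem isPt_lin {a : ℂ} (ha : a ∈ ball (0:ℂ) 1) : IsPt (idf - cst a) a := ⟨ha, dvd_lin ha⟩

theorem exists_pt {q : HD} (hq : Irreducible q) : ∃ a, IsPt q a := by
  have h1 : ∃ a ∈ ball (0:ℂ) 1, q.1 a = 0 := by
    by_contra h
    push Not at h
    exact hq.not_isUnit ((isUnit_iff q).2 h)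
  obtain ⟨a, ha, h0⟩ := h1
  obtain ⟨r, hr⟩ := (dvd_lin ha q).2 h0
  have hu : IsUnit r := by
    rcases (irreducible_iff.1 hq).2 hr with h | h
    · exact absurd h (irr_lin ha).not_isUnit
    · exact h
  refine ⟨a, ha, fun f => ?_⟩
  rw [← dvd_lin ha f, hr]
  exact hu.mul_right_dvd

theorem IsPt.mem {q : HD} {a : ℂ} (h : IsPt q a) : a ∈ ball (0:ℂ) 1 := h.1

end Pool.Agent.H684R3
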