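import Mathlib

/-!
Schottky's theorem (taken from the starting file `Pool.Agent.Lev.J_schottky`), and its consequences
for the class of the functions on the disc omitting `0` and `1`.
-/

set_option autoImplicit false

open Polynomial Metric Set Filter Topology

namespace Pool.Agent.H684R3

namespace Sch

open Complex

theorem exists_log {f : ℂ → ℂ} (hf : DifferentiableOn ℂ f (ball 0 1))
    (h0 : ∀ z ∈ ball (0:ℂ) 1, f z ≠ 0) :
    ∃ g : ℂ → ℂ, DifferentiableOn ℂ g (ball 0 1) ∧ ∀ z ∈ ball (0:ℂ) 1, exp (g z) = f z := by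
  have hd : DifferentiableOn ℂ (fun z => deriv f z / f z) (ball 0 1) :=
    (hf.deriv isOpen_ball).div hf h0
  obtain ⟨F, hF0, hF⟩ := hd.isExactOn_ball.with_val_at 0 (Complex.log (f 0))
  have hFd : DifferentiableOn ℂ F (ball 0 1) :=
    fun z hz => (hF z hz).differentiableAt.differentiableWithinAt
  refine ⟨F, hFd, fun z hz => ?_⟩
  have hz0 : (0:ℂ) ∈ ball (0:ℂ) 1 := mem_ball_self one_pos
  have hc : f z * exp (-F z) = f 0 * exp (-F 0) := by
    refine isOpen_ball.is_const_of_deriv_eq_zero (convex_ball (0:ℂ) 1).isPreconnected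
      (f := fun z => f z * exp (-F z)) (hf.mul hFd.neg.cexp) ?_ hz hz0
    intro x hx
    have h1 : HasDerivAt f (deriv f x) x :=
      (hf.differentiableAt (isOpen_ball.mem_nhds hx)).hasDerivAt
    have h2 := h1.mul (hF x hx).neg.cexp
    simp only [Pi.zero_apply]
    refine Eq.trans h2.deriv ?_
    have := h0 x hx
    field_simp
    ring
  rw [hF0, exp_neg, exp_neg, exp_log (h0 0 hz0), mul_inv_cancel₀ (h0 0 hz0)] at hc
  have := mul_inv_eq_one₀ (exp_ne_zero (F z)) |>.1 hc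
  exact this.symm

theorem exists_cos {f : ℂ → ℂ} (hf : DifferentiableOn ℂ f (ball 0 1))
    (h1 : ∀ z ∈ ball (0:ℂ) 1, f z ≠ 1) (h2 : ∀ z ∈ ball (0:ℂ) 1, f z ≠ -1) :
    ∃ g : ℂ → ℂ, DifferentiableOn ℂ g (ball 0 1) ∧
      ∀ z ∈ ball (0:ℂ) 1, cos (Real.pi * g z) = f z := by
  have hne : ∀ z ∈ ball (0:ℂ) 1, 1 - f z ^ 2 ≠ 0 := by
    intro z hz h
    have : (1 - f z) * (1 + f z) = 0 := by linear_combination h
    rcases mul_eq_zero.1 this with h | h
    · exact h1 z hz (by linear_combination -h)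
    · exact h2 z hz (by linear_combination h)
  obtain ⟨L, hL, hL'⟩ := exists_log ((differentiableOn_const (1:ℂ)).sub (hf.pow 2)) hne
  have hq : ∀ z ∈ ball (0:ℂ) 1, exp (L z / 2) ^ 2 = 1 - f z ^ 2 := by
    intro z hz
    rw [← exp_nat_mul]
    have : ((2:ℕ):ℂ) * (L z / 2) = L z := by push_cast; ring
    rw [this, hL' z hz]
    simp
  have hI : I ^ 2 = -1 := I_sq
  have hne2 : ∀ z ∈ ball (0:ℂ) 1, f z + I * exp (L z / 2) ≠ 0 := by
    intro z hz h
    have h3 := hq z hz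
    have : (f z + I * exp (L z / 2)) * (f z - I * exp (L z / 2)) = 1 := by
      linear_combination h3 - hI * exp (L z / 2) ^ 2
    rw [h, zero_mul] at this
    exact zero_ne_one this
  obtain ⟨M, hM, hM'⟩ := exists_log (hf.add ((differentiableOn_const I).mul (hL.div_const 2).cexp)) hne2
  have hpi : (Real.pi : ℂ) ≠ 0 := by exact_mod_cast Real.pi_ne_zero
  refine ⟨fun z => M z / (I * Real.pi), hM.div_const _, fun z hz => ?_⟩
  have h3 := hq z hz
  have hM1 : exp (M z) = f z + I * exp (L z / 2) := hM' z hz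
  have hM2 : exp (- M z) = f z - I * exp (L z / 2) := by
    rw [exp_neg, hM1]
    refine inv_eq_of_mul_eq_one_right ?_
    linear_combination h3 - hI * exp (L z / 2) ^ 2
  have e1 : (Real.pi : ℂ) * (M z / (I * Real.pi)) * I = M z := by
    field_simp
  rw [Complex.cos, e1]
  have e2 : -((Real.pi : ℂ) * (M z / (I * Real.pi))) * I = - M z := by rw [neg_mul, e1]
  rw [e2, hM1, hM2]
  ring

theorem norm_cos_le (w : ℂ) : ‖cos w‖ ≤ Real.exp ‖w‖ := by
  rw [Complex.cos, norm_div]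
  have h1 : ‖exp (w * I)‖ ≤ Real.exp ‖w‖ := by
    refine (norm_exp_le_exp_norm _).trans ?_
    rw [norm_mul, norm_I, mul_one]
  have h2 : ‖exp (-w * I)‖ ≤ Real.exp ‖w‖ := by
    refine (norm_exp_le_exp_norm _).trans ?_
    rw [norm_mul, norm_I, mul_one, norm_neg]
  have h3 := norm_add_le (exp (w * I)) (exp (-w * I))
  rw [Complex.norm_ofNat, div_le_iff₀ (by norm_num)]
  linarith

/-- Bloch type estimate -/
theorem bloch_aux {g : ℂ → ℂ} (hg : DifferentiableOn ℂ g (ball 0 1)) {ρ : ℝ} (hρ : 0 < ρ)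
    (hom : ∀ v : ℂ, ∃ w, dist w v < ρ ∧ ∀ z ∈ ball (0:ℂ) 1, g z ≠ w)
    {R : ℝ} (hR : R < 1) {z : ℂ} (hz : ‖z‖ ≤ R) : ‖deriv g z‖ * (R - ‖z‖) ≤ 48 * ρ := by
  have hR0 : 0 ≤ R := (norm_nonneg z).trans hz
  have hsub : closedBall (0:ℂ) R ⊆ ball 0 1 := closedBall_subset_ball hR
  have hgd : DifferentiableOn ℂ (deriv g) (ball 0 1) := hg.deriv isOpen_ball
  have hcont : ContinuousOn (fun z => ‖deriv g z‖ * (R - ‖z‖)) (closedBall (0:ℂ) R) :=
    (hgd.continuousOn.mono hsub).norm.mul (continuousOn_const.sub continuous_norm.continuousOn)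
  obtain ⟨a, ha, hmax⟩ := (isCompact_closedBall (0:ℂ) R).exists_isMaxOn
    ⟨z, by simpa using hz⟩ hcont
  have hmax' : ∀ x, ‖x‖ ≤ R → ‖deriv g x‖ * (R - ‖x‖) ≤ ‖deriv g a‖ * (R - ‖a‖) := by
    intro x hx
    exact hmax (show x ∈ closedBall (0:ℂ) R by simpa using hx)
  refine (hmax' z hz).trans ?_
  have haR : ‖a‖ ≤ R := by simpa using ha
  by_contra hcon
  push Not at hcon
  set m := ‖deriv g a‖ with hm
  set t := (R - ‖a‖) / 2 with ht
  have hMt : m * (R - ‖a‖) = 2 * m * t := by rw [ht]; ring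
  have hpos : 0 < m * (R - ‖a‖) := lt_trans (by positivity) hcon
  have ht0 : 0 < t := by
    rcases (mul_pos_iff.1 hpos) with h | h
    · rw [ht]; linarith [h.2]
    · exact absurd h.1 (not_lt.2 (norm_nonneg _))
  have hm0 : 0 < m := by
    rcases (mul_pos_iff.1 hpos) with h | h
    · exact h.1
    · exact absurd h.1 (not_lt.2 (norm_nonneg _))
  have hin : ∀ x ∈ closedBall a t, ‖x‖ ≤ R - t := by
    intro x hx
    have h1 : ‖x - a‖ ≤ t := by rwa [mem_closedBall, dist_eq_norm] at hx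
    have h2 : ‖x‖ ≤ ‖x - a‖ + ‖a‖ := by simpa using norm_add_le (x - a) a
    have : R - ‖a‖ = 2 * t := by rw [ht]; ring
    linarith
  have hin' : closedBall a t ⊆ ball (0:ℂ) 1 := by
    intro x hx
    have := hin x hx
    rw [mem_ball_zero_iff]; linarith
  have hk : ∀ x ∈ closedBall a t, ‖deriv g x‖ ≤ 2 * m := by
    intro x hx
    have h1 := hmax' x ((hin x hx).trans (by linarith))
    have h2 := hin x hx
    have h3 : ‖deriv g x‖ * t ≤ 2 * m * t := by
      calc ‖deriv g x‖ * t ≤ ‖deriv g x‖ * (R - ‖x‖) :=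
            mul_le_mul_of_nonneg_left (by linarith) (norm_nonneg _)
        _ ≤ _ := by rw [← hMt]; exact h1
    exact le_of_mul_le_mul_right h3 ht0
  have hS : ∀ x ∈ ball a t, ‖deriv g x - deriv g a‖ ≤ 3 * m / t * ‖x - a‖ := by
    intro x hx
    have hd : DifferentiableOn ℂ (deriv g) (ball a t) :=
      hgd.mono (ball_subset_closedBall.trans hin')
    have hmaps : MapsTo (deriv g) (ball a t) (closedBall (deriv g a) (3 * m)) := by
      intro y hy
      rw [mem_closedBall, dist_eq_norm]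
      calc ‖deriv g y - deriv g a‖ ≤ ‖deriv g y‖ + ‖deriv g a‖ := norm_sub_le _ _
        _ ≤ 2 * m + m := add_le_add (hk y (ball_subset_closedBall hy)) le_rfl
        _ = 3 * m := by ring
    have := Complex.dist_le_div_mul_dist_of_mapsTo_ball hd hmaps hx
    rwa [dist_eq_norm, dist_eq_norm] at this
  set s := t / 6 with hs
  have hs0 : 0 < s := by positivity
  have hst : closedBall a s ⊆ ball a t := closedBall_subset_ball (by rw [hs]; linarith)
  have hsub2 : closedBall a s ⊆ ball (0:ℂ) 1 :=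
    hst.trans (ball_subset_closedBall.trans hin')
  have haball : a ∈ closedBall a s := mem_closedBall_self hs0.le
  have hφ : ∀ x ∈ closedBall a s, ‖g x - g a - deriv g a * (x - a)‖ ≤ m / 2 * ‖x - a‖ := by
    intro x hx
    have hdiff : ∀ y ∈ closedBall a s, HasDerivWithinAt (fun y => g y - deriv g a * (y - a))
        (deriv g y - deriv g a) (closedBall a s) y := by
      intro y hy
      have h1 : HasDerivAt g (deriv g y) y :=
        (hg.differentiableAt (isOpen_ball.mem_nhds (hsub2 hy))).hasDerivAt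
      have h2 : HasDerivAt (fun y => deriv g a * (y - a)) (deriv g a * 1) y :=
        ((hasDerivAt_id y).sub_const a).const_mul _
      rw [mul_one] at h2
      exact (h1.sub h2).hasDerivWithinAt
    have hb : ∀ y ∈ closedBall a s, ‖deriv g y - deriv g a‖ ≤ m / 2 := by
      intro y hy
      refine (hS y (hst hy)).trans ?_
      have h1 : ‖y - a‖ ≤ s := by rwa [mem_closedBall, dist_eq_norm] at hy
      calc 3 * m / t * ‖y - a‖ ≤ 3 * m / t * s :=
            mul_le_mul_of_nonneg_left h1 (by positivity)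
        _ = m / 2 := by rw [hs]; field_simp; norm_num
    have := (convex_closedBall a s).norm_image_sub_le_of_norm_hasDerivWithin_le hdiff hb haball hx
    have e : (g x - deriv g a * (x - a)) - (g a - deriv g a * (a - a)) =
        g x - g a - deriv g a * (x - a) := by ring
    rwa [e] at this
  have hsph : ∀ x ∈ sphere a s, m * s / 2 ≤ ‖g x - g a‖ := by
    intro x hx
    have h1 := hφ x (sphere_subset_closedBall hx)
    have h2 : ‖x - a‖ = s := by rwa [mem_sphere, dist_eq_norm] at hx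
    have h3 : ‖deriv g a * (x - a)‖ = m * s := by rw [norm_mul, h2]
    have h4 : ‖deriv g a * (x - a)‖ ≤ ‖g x - g a‖ + ‖g x - g a - deriv g a * (x - a)‖ := by
      have := norm_sub_le (g x - g a) (g x - g a - deriv g a * (x - a))
      simpa using this
    rw [h2] at h1
    rw [h3] at h4
    linarith
  have hcl : DiffContOnCl ℂ g (ball a s) := by
    refine ⟨hg.mono (ball_subset_closedBall.trans hsub2), ?_⟩
    rw [closure_ball a hs0.ne']
    exact hg.continuousOn.mono hsub2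
  have hne : deriv g a ≠ 0 := norm_pos_iff.1 hm0
  have hfreq : ∃ᶠ x in nhds a, g x ≠ g a := by
    have h1 : HasDerivAt g (deriv g a) a :=
      (hg.differentiableAt (isOpen_ball.mem_nhds (hsub2 haball))).hasDerivAt
    have h2 : ∀ᶠ x in nhdsWithin a {a}ᶜ, g x ≠ g a := h1.eventually_ne hne
    exact h2.frequently.filter_mono nhdsWithin_le_nhds
  have himg := hcl.ball_subset_image_closedBall hs0 hsph hfreq
  obtain ⟨w, hw, hw'⟩ := hom (g a)
  have hwin : w ∈ ball (g a) (m * s / 2 / 2) := by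
    rw [mem_ball]
    refine hw.trans ?_
    have : 48 * ρ < 2 * m * t := by rw [← hMt]; exact hcon
    rw [hs]
    nlinarith
  obtain ⟨x, hx, hxw⟩ := himg hwin
  exact hw' x (hsub2 hx) hxw

theorem bloch {g : ℂ → ℂ} (hg : DifferentiableOn ℂ g (ball 0 1)) {ρ : ℝ} (hρ : 0 < ρ)
    (hom : ∀ v : ℂ, ∃ w, dist w v < ρ ∧ ∀ z ∈ ball (0:ℂ) 1, g z ≠ w)
    {z : ℂ} (hz : z ∈ ball (0:ℂ) 1) : ‖g z - g 0‖ ≤ 96 * ρ / (1 - ‖z‖) := by
  have hz1 : ‖z‖ < 1 := by simpa using hz
  have hpos : 0 < 1 - ‖z‖ := by linarith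
  have hsub : closedBall (0:ℂ) ‖z‖ ⊆ ball 0 1 := closedBall_subset_ball hz1
  have hb : ∀ x ∈ closedBall (0:ℂ) ‖z‖, ‖deriv g x‖ ≤ 96 * ρ / (1 - ‖z‖) := by
    intro x hx
    have hx1 : ‖x‖ ≤ ‖z‖ := by simpa using hx
    have h1 := bloch_aux hg hρ hom (R := (1 + ‖z‖) / 2) (by linarith) (z := x) (by linarith)
    rw [le_div_iff₀ hpos]
    have h2 : (1 - ‖z‖) / 2 ≤ (1 + ‖z‖) / 2 - ‖x‖ := by linarith
    have h3 : ‖deriv g x‖ * ((1 - ‖z‖) / 2) ≤ 48 * ρ :=
      (mul_le_mul_of_nonneg_left h2 (norm_nonneg _)).trans h1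
    linarith
  have hd : ∀ x ∈ closedBall (0:ℂ) ‖z‖, HasDerivWithinAt g (deriv g x) (closedBall (0:ℂ) ‖z‖) x :=
    fun x hx => (hg.differentiableAt (isOpen_ball.mem_nhds (hsub hx))).hasDerivAt.hasDerivWithinAt
  have := (convex_closedBall (0:ℂ) ‖z‖).norm_image_sub_le_of_norm_hasDerivWithin_le hd hb
    (x := 0) (y := z) (by simp) (by simp)
  refine this.trans ?_
  rw [sub_zero]
  have h5 : 0 ≤ 96 * ρ / (1 - ‖z‖) := by positivity
  nlinarith

theorem cosint (n : ℤ) : ∃ e : ℤ, (e = 1 ∨ e = -1) ∧ cos ((n : ℂ) * Real.pi) = e := by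
  have h : cos ((n : ℂ) * Real.pi) = ((Real.cos (n * Real.pi) : ℝ) : ℂ) := by push_cast; rfl
  rw [h, Real.cos_int_mul_pi]
  rcases Int.even_or_odd n with hn | hn
  · exact ⟨1, Or.inl rfl, by rw [hn.neg_one_zpow]; simp⟩
  · exact ⟨-1, Or.inr rfl, by rw [hn.neg_one_zpow]; simp⟩

/-- the points where `cos (π w)` is an integer form a net -/
theorem net (v : ℂ) : ∃ w : ℂ, dist w v < 2 ∧ ∃ n : ℤ, cos (Real.pi * w) = n := by
  have key : ∀ y : ℝ, 0 ≤ y → ∃ t : ℝ, |t - y| ≤ 1 ∧ ∃ n : ℤ, Real.cosh (Real.pi * t) = n := by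
    intro y hy
    set n : ℤ := ⌈Real.cosh (Real.pi * y)⌉ with hn
    have h1 : Real.cosh (Real.pi * y) ≤ n := Int.le_ceil _
    have h2 : (n : ℝ) < Real.cosh (Real.pi * y) + 1 := Int.ceil_lt_add_one _
    have hc1 : 1 ≤ Real.cosh (Real.pi * y) := Real.one_le_cosh _
    have hpi : 2 ≤ Real.cosh Real.pi := by
      have h3 : Real.cosh Real.pi ≥ Real.exp Real.pi / 2 := by
        rw [Real.cosh_eq]
        have := Real.exp_pos (-Real.pi)
        linarith
      have h4 : Real.exp Real.pi ≥ Real.pi + 1 := Real.add_one_le_exp _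
      have h5 : Real.pi > 3 := Real.pi_gt_three
      linarith
    have h3 : (n : ℝ) ≤ Real.cosh (Real.pi * (y + 1)) := by
      have h4 : Real.cosh (Real.pi * (y + 1)) = Real.cosh (Real.pi * y) * Real.cosh Real.pi +
          Real.sinh (Real.pi * y) * Real.sinh Real.pi := by
        rw [← Real.cosh_add]; ring_nf
      have h5 : 0 ≤ Real.sinh (Real.pi * y) := Real.sinh_nonneg_iff.2 (by positivity)
      have h6 : 0 ≤ Real.sinh Real.pi := Real.sinh_nonneg_iff.2 (by positivity)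
      rw [h4]
      nlinarith [mul_nonneg h5 h6]
    have hcont : ContinuousOn (fun t : ℝ => Real.cosh (Real.pi * t)) (Icc y (y + 1)) := by
      fun_prop
    obtain ⟨t, ht, ht'⟩ := intermediate_value_Icc (by linarith) hcont ⟨h1, h3⟩
    exact ⟨t, by rw [abs_le]; constructor <;> linarith [ht.1, ht.2], n, ht'⟩
  have key2 : ∃ t : ℝ, |t - v.im| ≤ 1 ∧ ∃ n : ℤ, Real.cosh (Real.pi * t) = n := by
    rcases le_total 0 v.im with h | h
    · exact key _ h
    · obtain ⟨t, ht, n, hn⟩ := key (-v.im) (by linarith)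
      refine ⟨-t, ?_, n, ?_⟩
      · rw [show -t - v.im = -(t - -v.im) by ring, abs_neg]; exact ht
      · rw [mul_neg, Real.cosh_neg, hn]
  obtain ⟨t, ht, n, hn⟩ := key2
  set m : ℤ := round v.re with hm
  have hmr : |(m:ℝ) - v.re| ≤ 1 / 2 := by
    rw [abs_sub_comm]; exact abs_sub_round v.re
  refine ⟨(m : ℂ) + (t : ℂ) * I, ?_, ?_⟩
  · rw [dist_eq_norm]
    have h1 := Complex.norm_le_abs_re_add_abs_im ((m : ℂ) + (t : ℂ) * I - v)
    have h2 : ((m : ℂ) + (t : ℂ) * I - v).re = (m:ℝ) - v.re := by simp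
    have h3 : ((m : ℂ) + (t : ℂ) * I - v).im = t - v.im := by simp
    rw [h2, h3] at h1
    linarith
  · have e : (Real.pi : ℂ) * ((m : ℂ) + (t : ℂ) * I) = (m : ℂ) * Real.pi + (Real.pi * t : ℝ) * I := by
      push_cast; ring
    obtain ⟨ε, -, he⟩ := cosint m
    rw [e, Complex.cos_add, Complex.sin_int_mul_pi, zero_mul, sub_zero, Complex.cos_mul_I,
      ← Complex.ofReal_cosh, hn, he]
    refine ⟨ε * n, ?_⟩
    push_cast
    rfl


theorem exists_cos_ctrl {f : ℂ → ℂ} (hf : DifferentiableOn ℂ f (ball 0 1))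
    (h1 : ∀ z ∈ ball (0:ℂ) 1, f z ≠ 1) (h2 : ∀ z ∈ ball (0:ℂ) 1, f z ≠ -1) :
    ∃ g : ℂ → ℂ, DifferentiableOn ℂ g (ball 0 1) ∧
      (∀ z ∈ ball (0:ℂ) 1, Complex.cos (Real.pi * g z) = f z) ∧ ‖g 0‖ ≤ 1 + ‖f 0‖ := by
  obtain ⟨g, hg, hg'⟩ := exists_cos hf h1 h2
  set k : ℤ := round ((g 0).re / 2) with hk
  have hcos : ∀ z ∈ ball (0:ℂ) 1, Complex.cos (Real.pi * (g z - 2 * k)) = f z := by
    intro z hz
    rw [← hg' z hz]
    have : (Real.pi : ℂ) * (g z - 2 * k) = Real.pi * g z - k * (2 * Real.pi) := by ring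
    rw [this, Complex.cos_sub_int_mul_two_pi]
  refine ⟨fun z => g z - 2 * k, hg.sub_const _, hcos, ?_⟩
  have h0 : (0:ℂ) ∈ ball (0:ℂ) 1 := mem_ball_self one_pos
  have hc0 := hcos 0 h0
  set w : ℂ := g 0 - 2 * k with hw
  have hre : |w.re| ≤ 1 := by
    have h3 : |(g 0).re / 2 - k| ≤ 1 / 2 := abs_sub_round _
    have h4 : w.re = (g 0).re - 2 * k := by simp [hw]
    rw [h4]
    rw [abs_le] at h3 ⊢
    constructor <;> linarith [h3.1, h3.2]
  have him : |w.im| ≤ ‖f 0‖ := by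
    rw [← hc0]
    have e : (Real.pi : ℂ) * w = ((Real.pi * w.re : ℝ) : ℂ) + ((Real.pi * w.im : ℝ) : ℂ) * I := by
      apply Complex.ext <;> simp
    have hcr : (Complex.cos (Real.pi * w)).re = Real.cos (Real.pi * w.re) * Real.cosh (Real.pi * w.im) := by
      rw [e]
      generalize Real.pi * w.re = p
      generalize Real.pi * w.im = q
      rw [Complex.cos_add, Complex.cos_mul_I, Complex.sin_mul_I]
      rw [← Complex.ofReal_cosh, ← Complex.ofReal_sinh, ← Complex.ofReal_cos, ← Complex.ofReal_sin]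
      simp only [Complex.sub_re, Complex.sub_im, Complex.mul_re, Complex.mul_im, Complex.ofReal_re,
        Complex.ofReal_im, Complex.I_re, Complex.I_im]
      ring
    have hci : (Complex.cos (Real.pi * w)).im = - (Real.sin (Real.pi * w.re) * Real.sinh (Real.pi * w.im)) := by
      rw [e]
      generalize Real.pi * w.re = p
      generalize Real.pi * w.im = q
      rw [Complex.cos_add, Complex.cos_mul_I, Complex.sin_mul_I]
      rw [← Complex.ofReal_cosh, ← Complex.ofReal_sinh, ← Complex.ofReal_cos, ← Complex.ofReal_sin]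
      simp only [Complex.sub_re, Complex.sub_im, Complex.mul_re, Complex.mul_im, Complex.ofReal_re,
        Complex.ofReal_im, Complex.I_re, Complex.I_im]
      ring
    have hsq : ‖Complex.cos (Real.pi * w)‖ ^ 2 = Real.cos (Real.pi * w.re) ^ 2 + Real.sinh (Real.pi * w.im) ^ 2 := by
      rw [Complex.sq_norm, Complex.normSq_apply, hcr, hci]
      have a1 := Real.cosh_sq (Real.pi * w.im)
      have a2 := Real.sin_sq_add_cos_sq (Real.pi * w.re)
      have : Real.sin (Real.pi * w.re) ^ 2 = 1 - Real.cos (Real.pi * w.re) ^ 2 := by linarith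
      calc _ = Real.cos (Real.pi * w.re) ^ 2 * Real.cosh (Real.pi * w.im) ^ 2 + Real.sin (Real.pi * w.re) ^ 2 * Real.sinh (Real.pi * w.im) ^ 2 := by ring
        _ = _ := by rw [a1, this]; ring
    have h5 : |Real.sinh (Real.pi * w.im)| ≤ ‖Complex.cos (Real.pi * w)‖ := by
      apply abs_le_of_sq_le_sq _ (norm_nonneg _)
      rw [hsq]; nlinarith [sq_nonneg (Real.cos (Real.pi * w.re))]
    have h6 : |w.im| ≤ |Real.sinh (Real.pi * w.im)| := by
      rw [Real.abs_sinh, abs_mul, abs_of_pos Real.pi_pos]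
      have h7 : Real.pi * |w.im| ≤ Real.sinh (Real.pi * |w.im|) := Real.self_le_sinh_iff.2 (by positivity)
      have h8 : |w.im| ≤ Real.pi * |w.im| := by nlinarith [Real.pi_gt_three, abs_nonneg w.im]
      linarith
    exact h6.trans h5
  have := Complex.norm_le_abs_re_add_abs_im w
  show ‖w‖ ≤ _
  linarith

theorem schottky_unif {f : ℂ → ℂ} (hf : DifferentiableOn ℂ f (ball 0 1))
    (h1 : ∀ z ∈ ball (0:ℂ) 1, f z ≠ 1) (h2 : ∀ z ∈ ball (0:ℂ) 1, f z ≠ -1)
    {M : ℝ} (hM : ‖f 0‖ ≤ M) :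
    ∀ z ∈ ball (0:ℂ) (1/2),
      ‖f z‖ ≤ Real.exp (Real.pi * Real.exp (Real.pi * (M + 386))) := by
  obtain ⟨F, hF, hF', hF0⟩ := exists_cos_ctrl hf h1 h2
  have hFint : ∀ z ∈ ball (0:ℂ) 1, ∀ n : ℤ, F z ≠ n := by
    intro z hz n h
    have h3 := hF' z hz
    obtain ⟨ε, hε, he⟩ := cosint n
    rw [h, mul_comm, he] at h3
    rcases hε with rfl | rfl
    · exact h1 z hz (by rw [← h3]; simp)
    · exact h2 z hz (by rw [← h3]; simp)
  obtain ⟨g, hg, hg', hg0⟩ := exists_cos_ctrl hF (fun z hz => by simpa using hFint z hz 1)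
    (fun z hz => by simpa using hFint z hz (-1))
  have hom : ∀ v : ℂ, ∃ w, dist w v < 2 ∧ ∀ z ∈ ball (0:ℂ) 1, g z ≠ w := by
    intro v
    obtain ⟨w, hw, n, hn⟩ := net v
    refine ⟨w, hw, fun z hz h => ?_⟩
    apply hFint z hz n
    rw [← hg' z hz, h, hn]
  intro z hz
  have hzh : ‖z‖ < 1/2 := by simpa using hz
  have hz1 : z ∈ ball (0:ℂ) 1 := by rw [mem_ball_zero_iff]; linarith
  have hb := bloch hg two_pos hom hz1
  have hpos : 0 < 1 - ‖z‖ := by linarith
  have hb' : 96 * 2 / (1 - ‖z‖) ≤ 384 := by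
    rw [div_le_iff₀ hpos]; linarith
  have hgz : ‖g z‖ ≤ M + 386 := by
    have h4 : ‖g z‖ ≤ ‖g z - g 0‖ + ‖g 0‖ := by simpa using norm_add_le (g z - g 0) (g 0)
    linarith
  rw [← hF' z hz1]
  refine (norm_cos_le _).trans (Real.exp_le_exp.2 ?_)
  rw [norm_mul, Complex.norm_real, Real.norm_eq_abs, abs_of_pos Real.pi_pos]
  refine mul_le_mul_of_nonneg_left ?_ Real.pi_pos.le
  rw [← hg' z hz1]
  refine (norm_cos_le _).trans (Real.exp_le_exp.2 ?_)
  rw [norm_mul, Complex.norm_real, Real.norm_eq_abs, abs_of_pos Real.pi_pos]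
  exact mul_le_mul_of_nonneg_left hgz Real.pi_pos.le

end Sch

end Pool.Agent.H684R3
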